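import Mathlib

namespace Pool.Agent.H312TD

open Finset

/-- `3(1-s) ≤ exp(1 - 9/4 s²)` on `[1/6,1]`. -/
lemma three_mul_le_exp (s : ℝ) (h1 : 1 / 6 ≤ s) (h2 : s ≤ 1) :
    3 * (1 - s) ≤ Real.exp (1 - 9 / 4 * s ^ 2) := by
  by_cases h : s ≤ 2 / 3
  · have ht : 0 ≤ 1 - 9 / 4 * s ^ 2 := by nlinarith
    have h4 := Real.sum_le_exp_of_nonneg ht 4
    simp only [Finset.sum_range_succ, Finset.sum_range_zero, Nat.factorial] at h4
    norm_num at h4
    refine le_trans ?_ h4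
    have key : 0 ≤ (1 + 3 / 2 * s) ^ 2 * (4 - 9 / 4 * s ^ 2) - 6 := by
      nlinarith [mul_nonneg (sub_nonneg.2 h1) (sub_nonneg.2 h),
        mul_nonneg (mul_nonneg (sub_nonneg.2 h1) (sub_nonneg.2 h)) (by linarith : (0:ℝ) ≤ s),
        mul_nonneg (mul_nonneg (sub_nonneg.2 h1) (sub_nonneg.2 h)) (sq_nonneg s)]
    nlinarith [mul_nonneg (sq_nonneg (1 - 3 / 2 * s)) key]
  · push_neg at h
    set t := 1 - 9 / 4 * s ^ 2 with ht
    have h3 : 0 ≤ 1 + t / 2 := by nlinarith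
    have h4 : 1 + t / 2 ≤ Real.exp (t / 2) := by linarith [Real.add_one_le_exp (t / 2)]
    have h5 : Real.exp t = Real.exp (t / 2) ^ 2 := by
      rw [← Real.exp_nat_mul]; congr 1; push_cast; ring
    rw [h5]
    have h6 : (1 + t / 2) ^ 2 ≤ Real.exp (t / 2) ^ 2 := by
      apply pow_le_pow_left₀ h3 h4
    refine le_trans ?_ h6
    rw [ht]
    nlinarith [mul_nonneg (sq_nonneg (1 - 3 / 2 * s)) (by nlinarith : 0 ≤ (1 + 3 / 2 * s) ^ 2 / 4 - 1)]

lemma one_sub_le_exp_sq (s : ℝ) (h1 : 0 ≤ s) (h2 : s ≤ 1) :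
    1 - s ≤ Real.exp (-(9 / 4 * s ^ 2)) := by
  by_cases h : s ≤ 4 / 9
  · have := Real.add_one_le_exp (-s)
    have h3 : Real.exp (-s) ≤ Real.exp (-(9 / 4 * s ^ 2)) := by
      apply Real.exp_le_exp.2; nlinarith
    linarith
  · push_neg at h
    have h3 := three_mul_le_exp s (by linarith) h2
    have h4 : Real.exp (1 - 9 / 4 * s ^ 2) = Real.exp 1 * Real.exp (-(9 / 4 * s ^ 2)) := by
      rw [← Real.exp_add]; congr 1
    rw [h4] at h3
    have h5 : Real.exp 1 < 3 := by linarith [Real.exp_one_lt_d9]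
    have h6 := Real.exp_pos (-(9 / 4 * s ^ 2))
    nlinarith

/-- `(∑ s²) ∏ (1-s) ≤ 4/27`. -/
lemma sum_sq_mul_prod_le {ι : Type*} [DecidableEq ι] (I : Finset ι) (s : ι → ℝ)
    (h0 : ∀ i ∈ I, 0 ≤ s i) (h1 : ∀ i ∈ I, s i ≤ 1) :
    (∑ i ∈ I, s i ^ 2) * ∏ i ∈ I, (1 - s i) ≤ 4 / 27 := by
  set Q := ∑ i ∈ I, s i ^ 2 with hQ
  have hQ0 : 0 ≤ Q := Finset.sum_nonneg (fun i _ => sq_nonneg _)
  by_cases h : ∃ i ∈ I, 1 / 6 ≤ s i
  · obtain ⟨a, ha, hsa⟩ := h
    have hprod : ∏ i ∈ I, (1 - s i) = (1 - s a) * ∏ i ∈ I.erase a, (1 - s i) :=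
      (Finset.mul_prod_erase I (fun i => 1 - s i) ha).symm
    have hQe : Q = s a ^ 2 + ∑ i ∈ I.erase a, s i ^ 2 :=
      (Finset.add_sum_erase I (fun i => s i ^ 2) ha).symm
    have h3 : ∏ i ∈ I.erase a, (1 - s i) ≤ Real.exp (-(9 / 4 * ∑ i ∈ I.erase a, s i ^ 2)) := by
      have : Real.exp (-(9 / 4 * ∑ i ∈ I.erase a, s i ^ 2))
          = ∏ i ∈ I.erase a, Real.exp (-(9 / 4 * s i ^ 2)) := by
        rw [← Real.exp_sum]; congr 1; rw [Finset.mul_sum, Finset.sum_neg_distrib]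
      rw [this]
      apply Finset.prod_le_prod
      · intro i hi; linarith [h1 i (Finset.mem_of_mem_erase hi)]
      · intro i hi
        exact one_sub_le_exp_sq _ (h0 i (Finset.mem_of_mem_erase hi)) (h1 i (Finset.mem_of_mem_erase hi))
    have h4 := three_mul_le_exp (s a) hsa (h1 a ha)
    have h5 : 3 * ∏ i ∈ I, (1 - s i) ≤ Real.exp (1 - 9 / 4 * Q) := by
      have h6 : Real.exp (1 - 9 / 4 * Q) = Real.exp (1 - 9 / 4 * s a ^ 2) *
          Real.exp (-(9 / 4 * ∑ i ∈ I.erase a, s i ^ 2)) := by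
        rw [← Real.exp_add]; congr 1; rw [hQe]; ring
      rw [h6, hprod, ← mul_assoc]
      apply mul_le_mul h4 h3
      · apply Finset.prod_nonneg; intro i hi; linarith [h1 i (Finset.mem_of_mem_erase hi)]
      · exact (Real.exp_pos _).le
    have h7 : 9 / 4 * Q ≤ Real.exp (9 / 4 * Q - 1) := by
      linarith [Real.add_one_le_exp (9 / 4 * Q - 1)]
    have h8 : (9 / 4 * Q) * (3 * ∏ i ∈ I, (1 - s i)) ≤
        Real.exp (9 / 4 * Q - 1) * Real.exp (1 - 9 / 4 * Q) := by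
      apply mul_le_mul h7 h5
      · apply mul_nonneg (by norm_num); apply Finset.prod_nonneg; intro i hi; linarith [h1 i hi]
      · exact (Real.exp_pos _).le
    rw [← Real.exp_add] at h8
    have h9 : 9 / 4 * Q - 1 + (1 - 9 / 4 * Q) = 0 := by ring
    rw [h9, Real.exp_zero] at h8
    nlinarith
  · push_neg at h
    set σ := ∑ i ∈ I, s i with hσ
    have hQσ : Q ≤ 1 / 6 * σ := by
      rw [hQ, hσ, Finset.mul_sum]
      apply Finset.sum_le_sum
      intro i hi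
      have := h i hi
      have := h0 i hi
      nlinarith
    have hP : ∏ i ∈ I, (1 - s i) ≤ Real.exp (-σ) := by
      have : Real.exp (-σ) = ∏ i ∈ I, Real.exp (-(s i)) := by
        rw [← Real.exp_sum]; congr 1; rw [Finset.sum_neg_distrib]
      rw [this]
      apply Finset.prod_le_prod
      · intro i hi; linarith [h1 i hi]
      · intro i hi; linarith [Real.add_one_le_exp (-(s i))]
    have hσ0 : 0 ≤ σ := Finset.sum_nonneg h0
    have h3 : σ ≤ Real.exp (σ - 1) := by linarith [Real.add_one_le_exp (σ - 1)]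
    have h4 : σ * Real.exp (-σ) ≤ Real.exp (-1) := by
      have := mul_le_mul_of_nonneg_right h3 (Real.exp_pos (-σ)).le
      rw [← Real.exp_add] at this
      have h5 : σ - 1 + -σ = -1 := by ring
      rwa [h5] at this
    have h6 : Real.exp (-1) ≤ 1 / 2 := by
      rw [Real.exp_neg]
      have : (2:ℝ) ≤ Real.exp 1 := by linarith [Real.add_one_le_exp (1:ℝ)]
      rw [inv_le_comm₀ (Real.exp_pos 1) (by norm_num)]
      linarith
    calc Q * ∏ i ∈ I, (1 - s i) ≤ (1 / 6 * σ) * Real.exp (-σ) := by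
          apply mul_le_mul hQσ hP
          · apply Finset.prod_nonneg; intro i hi; linarith [h1 i hi]
          · positivity
      _ = 1 / 6 * (σ * Real.exp (-σ)) := by ring
      _ ≤ 1 / 6 * (1 / 2) := by
          apply mul_le_mul_of_nonneg_left (le_trans h4 h6) (by norm_num)
      _ ≤ 4 / 27 := by norm_num

lemma one_sub_le_exp_two (x : ℝ) (h0 : 0 ≤ x) (h1 : x ≤ 1) :
    1 - x ≤ Real.exp (-(x + x ^ 2 / 2)) := by
  rcases eq_or_lt_of_le h1 with h | h
  · rw [h]; simp only [sub_self]; exact (Real.exp_pos _).le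
  · have hs := Real.hasSum_pow_div_log_of_abs_lt_one (x := x) (by rw [abs_of_nonneg h0]; exact h)
    have h3 := sum_le_hasSum (Finset.range 2) (fun i _ => by positivity) hs
    simp only [Finset.sum_range_succ, Finset.sum_range_zero] at h3
    norm_num at h3
    have h4 : Real.log (1 - x) ≤ -(x + x ^ 2 / 2) := by linarith
    calc 1 - x = Real.exp (Real.log (1 - x)) := by rw [Real.exp_log (by linarith)]
      _ ≤ _ := Real.exp_le_exp.2 h4

lemma exp_neg_seven_halves : Real.exp (-(7 / 2)) ≤ 1 / 27 := by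
  have h1 : Real.exp (7 / 2) ^ 2 = Real.exp 1 ^ 7 := by
    rw [← Real.exp_nat_mul, ← Real.exp_nat_mul]; norm_num
  have h2 : (2.7 : ℝ) ≤ Real.exp 1 := by linarith [Real.exp_one_gt_d9]
  have h3 : (2.7 : ℝ) ^ 7 ≤ Real.exp 1 ^ 7 := pow_le_pow_left₀ (by norm_num) h2 7
  have h4 : (27 : ℝ) ^ 2 ≤ Real.exp (7 / 2) ^ 2 := by
    rw [h1]; refine le_trans ?_ h3; norm_num
  have h5 : (27 : ℝ) ≤ Real.exp (7 / 2) := by
    have := Real.exp_pos (7 / 2)
    nlinarith
  rw [Real.exp_neg, inv_le_comm₀ (Real.exp_pos _) (by norm_num)]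
  linarith

end Pool.Agent.H312TD
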