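import Pool.Agent.H312TD.Dom

namespace Pool.Agent.H312TD

open Finset Classical

lemma xor_cancel (a b : ℕ) : a ^^^ (a ^^^ b) = b := by
  rw [← Nat.xor_assoc, Nat.xor_self, Nat.zero_xor]

/-- the least colour in `{0,1,2}` different from `u % 3` and `v % 3`. -/
def tri (u v : ℕ) : ℕ :=
  if u % 3 ≠ 0 ∧ v % 3 ≠ 0 then 0 else if u % 3 ≠ 1 ∧ v % 3 ≠ 1 then 1 else 2

lemma tri_comm (u v : ℕ) : tri u v = tri v u := by
  unfold tri
  have h1 : (u % 3 ≠ 0 ∧ v % 3 ≠ 0) ↔ (v % 3 ≠ 0 ∧ u % 3 ≠ 0) := and_comm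
  have h2 : (u % 3 ≠ 1 ∧ v % 3 ≠ 1) ↔ (v % 3 ≠ 1 ∧ u % 3 ≠ 1) := and_comm
  simp only [h1, h2]

lemma tri_lt (u v : ℕ) : tri u v < 3 := by
  unfold tri; split_ifs <;> omega

lemma tri_ne_left (u v : ℕ) : tri u v ≠ u % 3 := by
  unfold tri; split_ifs <;> omega

/-- the colour of the edge `uv`. -/
def cc (k B M u v : ℕ) : ℕ :=
  if u < M ∧ v < M then (if u ^^^ v ≤ k then (u ^^^ v) - 1 else tri u v)
  else if u < M ∧ u < B * k ∧ u / k = v - M then u % k
  else if v < M ∧ v < B * k ∧ v / k = u - M then v % k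
  else tri u v

lemma cc_comm (k B M u v : ℕ) : cc k B M u v = cc k B M v u := by
  unfold cc
  rw [Nat.xor_comm u v, tri_comm u v]
  by_cases hu : u < M <;> by_cases hv : v < M
  · simp [hu, hv]
  · simp [hu, hv]
  · simp [hu, hv]
  · simp [hu, hv]

lemma cc_lt (k B M u v : ℕ) (hk : 3 ≤ k) (huv : u ≠ v) : cc k B M u v < k := by
  unfold cc
  have h1 := tri_lt u v
  have h2 : u ^^^ v ≠ 0 := by
    intro h; exact huv (Nat.xor_eq_zero_iff.1 h)
  have h3 : u % k < k := Nat.mod_lt _ (by omega)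
  have h4 : v % k < k := Nat.mod_lt _ (by omega)
  split_ifs <;> omega

/-- the factors of the construction. -/
def Gc (n k B M : ℕ) (i : Fin k) : SimpleGraph (Fin n) where
  Adj u v := u ≠ v ∧ cc k B M u v = i
  symm := ⟨fun u v h => ⟨h.1.symm, by rw [cc_comm]; exact h.2⟩⟩
  loopless := ⟨fun u h => h.1 rfl⟩

lemma xor_lt (t q v g : ℕ) (hg : g < 2 ^ t) (hv : v < 2 ^ t * q) : v ^^^ g < 2 ^ t * q := by
  have h1 : (v ^^^ g) / 2 ^ t = v / 2 ^ t := by
    rw [← Nat.shiftRight_eq_div_pow, Nat.shiftRight_xor_distrib, Nat.shiftRight_eq_div_pow,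
      Nat.shiftRight_eq_div_pow, Nat.div_eq_of_lt hg, Nat.xor_zero]
  have h2 : v / 2 ^ t < q := Nat.div_lt_of_lt_mul hv
  rw [← h1] at h2
  rw [mul_comm]
  exact (Nat.div_lt_iff_lt_mul (by positivity)).1 h2

lemma isFactorization_Gc (n k t q : ℕ) (ht : k < 2 ^ t) (hk : 3 ≤ k) (hq : k ≤ q) (h1 : 2 ^ t * q ≤ n)
    (h2 : n < 2 ^ t * q + 2 ^ t) : IsFactorization (Gc n k (2 ^ t) (2 ^ t * q)) := by
  have hk2 : k < 2 ^ t := ht
  have hM : 2 ^ t * k ≤ 2 ^ t * q := Nat.mul_le_mul_left _ hq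
  constructor
  · rintro i j hij u v ⟨_, hu⟩ ⟨_, hv⟩
    apply hij
    apply Fin.ext
    rw [← hu, ← hv]
  · intro u v huv
    refine ⟨⟨cc k (2 ^ t) (2 ^ t * q) u v, cc_lt _ _ _ _ _ hk ?_⟩, huv, rfl⟩
    intro h; exact huv (Fin.ext h)
  · intro i v
    by_cases hv : (v : ℕ) < 2 ^ t * q
    · have hg : (i : ℕ) + 1 < 2 ^ t := by have := i.2; omega
      have hu := xor_lt t q v (i + 1) hg hv
      refine ⟨⟨(v : ℕ) ^^^ (i + 1), lt_of_lt_of_le hu h1⟩, ?_, ?_⟩
      · intro h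
        have h3 := congrArg Fin.val h
        simp only at h3
        have h4 : (v : ℕ) ^^^ ((v : ℕ) ^^^ (i + 1)) = 0 := by rw [← h3]; exact Nat.xor_self _
        rw [xor_cancel] at h4
        omega
      · show cc k (2 ^ t) (2 ^ t * q) v ((v : ℕ) ^^^ (i + 1)) = i
        unfold cc
        rw [if_pos ⟨hv, hu⟩, xor_cancel, if_pos (by have := i.2; omega)]
        omega
    · push Not at hv
      set s := (v : ℕ) - 2 ^ t * q with hs
      have hs2 : s < 2 ^ t := by have := v.2; omega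
      have hu : s * k + i < 2 ^ t * k := by
        have h3 : (s + 1) * k ≤ 2 ^ t * k := Nat.mul_le_mul_right _ hs2
        have h4 := i.2
        have h5 : (s + 1) * k = s * k + k := by ring
        omega
      have hdiv : (s * k + i) / k = s := by
        rw [mul_comm, Nat.mul_add_div (by omega), Nat.div_eq_of_lt i.2, add_zero]
      have hmod : (s * k + i) % k = i := by
        rw [mul_comm, Nat.mul_add_mod, Nat.mod_eq_of_lt i.2]
      refine ⟨⟨s * k + i, by omega⟩, ?_, ?_⟩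
      · intro h
        have h3 := congrArg Fin.val h
        simp only at h3
        omega
      · show cc k (2 ^ t) (2 ^ t * q) v (s * k + i) = i
        unfold cc
        rw [if_neg (by omega), if_neg (by omega), if_pos ⟨by omega, hu, hdiv⟩, hmod]

/-- a vertex with only one neighbour in colour `i`. -/
lemma unique_nbr (n k t q : ℕ) (i : Fin k) (v u : Fin n) (hv1 : 2 ^ t * k ≤ (v : ℕ))
    (hv2 : (v : ℕ) < 2 ^ t * q) (hi : 3 ≤ (i : ℕ) ∨ (v : ℕ) % 3 = i)
    (h : (Gc n k (2 ^ t) (2 ^ t * q) i).Adj v u) : (u : ℕ) = (v : ℕ) ^^^ (i + 1) := by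
  obtain ⟨hne, hc⟩ := h
  have ht1 := tri_lt v u
  have ht2 := tri_ne_left v u
  unfold cc at hc
  have hx : (v : ℕ) ^^^ (u : ℕ) ≠ 0 := by
    intro h; exact hne (Fin.ext (Nat.xor_eq_zero_iff.1 h))
  split_ifs at hc with a1 a2 a3 a4
  · have : (i : ℕ) + 1 = (v : ℕ) ^^^ (u : ℕ) := by omega
    rw [this, xor_cancel]
  · omega
  · omega
  · omega
  · omega

lemma le_totalDomNumber (n k t q : ℕ) (ht : k < 2 ^ t) (hk : 3 ≤ k) (hq : k ≤ q) (h1 : 2 ^ t * q ≤ n)
    (h2 : n < 2 ^ t * q + 2 ^ t) (i : Fin k) (W : Finset (Fin n))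
    (hW : ∀ v ∈ W, 2 ^ t * k ≤ (v : ℕ) ∧ (v : ℕ) < 2 ^ t * q ∧ (3 ≤ (i : ℕ) ∨ (v : ℕ) % 3 = i)) :
    W.card ≤ totalDomNumber (Gc n k (2 ^ t) (2 ^ t * q) i) := by
  obtain ⟨S, hS1, hS2⟩ := exists_totalDom (Gc n k (2 ^ t) (2 ^ t * q) i)
    ((isFactorization_Gc n k t q ht hk hq h1 h2).minDeg i)
  rw [← hS1]
  choose nb hnb1 hnb2 using hS2
  apply Finset.card_le_card_of_injOn nb
  · intro v _; exact hnb1 v
  · intro v hv v' hv' hvv
    have hv := hW v hv
    have hv' := hW v' hv'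
    have e1 := unique_nbr n k t q i v (nb v) hv.1 hv.2.1 hv.2.2 (hnb2 v)
    have e2 := unique_nbr n k t q i v' (nb v') hv'.1 hv'.2.1 hv'.2.2 (hnb2 v')
    rw [hvv] at e1
    rw [e1] at e2
    apply Fin.ext
    exact Nat.xor_left_injective e2

/-- lower bound for high colours. -/
lemma low_high (n k t q : ℕ) (ht : k < 2 ^ t) (hk : 3 ≤ k) (hq : k ≤ q) (h1 : 2 ^ t * q ≤ n)
    (h2 : n < 2 ^ t * q + 2 ^ t) (i : Fin k) (hi : 3 ≤ (i : ℕ)) :
    2 ^ t * q - 2 ^ t * k ≤ totalDomNumber (Gc n k (2 ^ t) (2 ^ t * q) i) := by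
  have hW := le_totalDomNumber n k t q ht hk hq h1 h2 i
    ((Finset.univ : Finset (Fin (2 ^ t * q - 2 ^ t * k))).image
      (fun j : Fin (2 ^ t * q - 2 ^ t * k) => (⟨2 ^ t * k + j, by have := j.2; omega⟩ : Fin n))) (by
      intro v hv
      rw [Finset.mem_image] at hv
      obtain ⟨j, _, rfl⟩ := hv
      have := j.2
      refine ⟨?_, ?_, Or.inl hi⟩
      · simp
      · simp only; omega)
  rw [Finset.card_image_of_injective] at hW
  · simpa using hW
  · intro a b hab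
    have := congrArg Fin.val hab
    simp only at this
    apply Fin.ext; omega

lemma low_low (n k t q : ℕ) (ht : k < 2 ^ t) (hk : 3 ≤ k) (hq : k ≤ q) (h1 : 2 ^ t * q ≤ n)
    (h2 : n < 2 ^ t * q + 2 ^ t) (i : Fin k) (hi : (i : ℕ) < 3) :
    (2 ^ t * q - 2 ^ t * k - 3) / 3 ≤ totalDomNumber (Gc n k (2 ^ t) (2 ^ t * q) i) := by
  have hW := le_totalDomNumber n k t q ht hk hq h1 h2 i
    ((Finset.univ : Finset (Fin ((2 ^ t * q - 2 ^ t * k - 3) / 3))).image
      (fun j : Fin ((2 ^ t * q - 2 ^ t * k - 3) / 3) => (⟨3 * ((2 ^ t * k) / 3 + 1) + 3 * j + i, by have := j.2; omega⟩ : Fin n))) (by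
      intro v hv
      rw [Finset.mem_image] at hv
      obtain ⟨j, _, rfl⟩ := hv
      have := j.2
      refine ⟨?_, ?_, Or.inr ?_⟩
      · simp only; omega
      · simp only; omega
      · simp only; omega)
  rw [Finset.card_image_of_injective] at hW
  · simpa using hW
  · intro a b hab
    have := congrArg Fin.val hab
    simp only at this
    apply Fin.ext; omega

end Pool.Agent.H312TD
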