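import Pool.Agent.H312TD.UpperU
import Pool.Agent.H312TD.Lower

namespace Pool.Agent.H312TD

open Finset Classical Filter Topology

lemma bddAbove_P (n k : ℕ) : BddAbove {p | ∃ G : Fin k → SimpleGraph (Fin n), IsFactorization G ∧
    p = ∏ i, totalDomNumber (G i)} := by
  refine ⟨n ^ k, ?_⟩
  rintro p ⟨G, hG, rfl⟩
  calc ∏ i, totalDomNumber (G i) ≤ ∏ _i : Fin k, n :=
        Finset.prod_le_prod' (fun i _ => totalDomNumber_le_n (G i) (hG.minDeg i))
    _ = n ^ k := by simp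

lemma le_P {n k : ℕ} (G : Fin k → SimpleGraph (Fin n)) (hG : IsFactorization G) :
    ∏ i, totalDomNumber (G i) ≤ P n k :=
  le_csSup (bddAbove_P n k) ⟨G, hG, rfl⟩

lemma P_eq (n k : ℕ) : P n k = 0 ∨ ∃ G : Fin k → SimpleGraph (Fin n), IsFactorization G ∧
    P n k = ∏ i, totalDomNumber (G i) := by
  by_cases h : {p | ∃ G : Fin k → SimpleGraph (Fin n), IsFactorization G ∧
    p = ∏ i, totalDomNumber (G i)}.Nonempty
  · right
    exact Nat.sSup_mem h (bddAbove_P n k)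
  · left
    rw [Set.not_nonempty_iff_eq_empty] at h
    unfold P
    rw [h]
    simp

lemma prod_third (j : ℕ) : ∏ i ∈ Finset.range (3 + j), (if i < 3 then (1 / 3 : ℝ) else 1) = 1 / 27 := by
  induction j with
  | zero => simp [Finset.prod_range_succ]; norm_num
  | succ j ih =>
    rw [← add_assoc, Finset.prod_range_succ, ih, if_neg (by omega), mul_one]

/-- the constant loss in the construction. -/
def C (k t : ℕ) : ℕ := 2 ^ t + 2 ^ t * k + 6

lemma lower_P (n k t : ℕ) (ht : k < 2 ^ t) (hk : 3 ≤ k) (hn : 2 ^ t * (k + 1) ≤ n) (hC : C k t ≤ n) :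
    1 / 27 * ((n : ℝ) - C k t) ^ k ≤ (P n k : ℝ) := by
  have hB : 0 < 2 ^ t := by positivity
  set q := n / 2 ^ t with hqdef
  have h1 : 2 ^ t * q ≤ n := Nat.mul_div_le n (2 ^ t)
  have h2 : n < 2 ^ t * q + 2 ^ t := by
    have h3 := Nat.div_add_mod n (2 ^ t)
    have h4 := Nat.mod_lt n hB
    rw [← hqdef] at h3
    omega
  have hq : k ≤ q := by
    rw [hqdef, Nat.le_div_iff_mul_le hB]
    have : 2 ^ t * (k + 1) = k * 2 ^ t + 2 ^ t := by ring
    omega
  have hG := isFactorization_Gc n k t q ht hk hq h1 h2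
  have hle := le_P _ hG
  have hC' : (0:ℝ) ≤ (n : ℝ) - C k t := by
    have : (C k t : ℝ) ≤ n := by exact_mod_cast hC
    linarith
  have hfac : ∀ i : Fin k, (if (i : ℕ) < 3 then (1 / 3 : ℝ) else 1) * ((n : ℝ) - C k t)
      ≤ (totalDomNumber (Gc n k (2 ^ t) (2 ^ t * q) i) : ℝ) := by
    intro i
    by_cases hi : (i : ℕ) < 3
    · rw [if_pos hi]
      have h3 := low_low n k t q ht hk hq h1 h2 i hi
      have h4 : n ≤ 3 * totalDomNumber (Gc n k (2 ^ t) (2 ^ t * q) i) + C k t := by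
        unfold C
        omega
      have h5 : (n : ℝ) ≤ 3 * (totalDomNumber (Gc n k (2 ^ t) (2 ^ t * q) i) : ℝ) + C k t := by
        exact_mod_cast h4
      linarith
    · rw [if_neg hi]
      have h3 := low_high n k t q ht hk hq h1 h2 i (by omega)
      have h4 : n ≤ totalDomNumber (Gc n k (2 ^ t) (2 ^ t * q) i) + C k t := by
        unfold C
        omega
      have h5 : (n : ℝ) ≤ (totalDomNumber (Gc n k (2 ^ t) (2 ^ t * q) i) : ℝ) + C k t := by
        exact_mod_cast h4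
      linarith
  have hprod : 1 / 27 * ((n : ℝ) - C k t) ^ k
      = ∏ i : Fin k, ((if (i : ℕ) < 3 then (1 / 3 : ℝ) else 1) * ((n : ℝ) - C k t)) := by
    rw [Finset.prod_mul_distrib]
    congr 1
    · rw [Fin.prod_univ_eq_prod_range (fun i => if i < 3 then (1 / 3 : ℝ) else 1) k]
      obtain ⟨j, rfl⟩ : ∃ j, k = 3 + j := ⟨k - 3, by omega⟩
      exact (prod_third j).symm
    · simp
  rw [hprod]
  refine le_trans (Finset.prod_le_prod ?_ (fun i _ => hfac i)) ?_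
  · intro i _
    apply mul_nonneg _ hC'
    split_ifs <;> norm_num
  · exact_mod_cast hle

/-- Uniform lower bound. -/
lemma lower_unif (ε : ℝ) (hε : 0 < ε) :
    ∃ K : ℕ, ∀ n k : ℕ, 3 ≤ k → K * k ^ 3 ≤ n → 1 / 27 - ε ≤ (P n k : ℝ) / (n : ℝ) ^ k := by
  obtain ⟨K0, hK0⟩ := exists_nat_ge (1 / ε)
  refine ⟨max K0 5, ?_⟩
  intro n k hk hn
  have hK5 : 5 * k ^ 3 ≤ n := le_trans (Nat.mul_le_mul_right _ (le_max_right _ _)) hn
  have hKK : K0 * k ^ 3 ≤ n := le_trans (Nat.mul_le_mul_right _ (le_max_left _ _)) hn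
  set t := Nat.log 2 k + 1 with ht
  have ht1 : k < 2 ^ t := Nat.lt_pow_succ_log_self (by norm_num) k
  have ht2 : 2 ^ t ≤ 2 * k := by
    rw [ht, pow_succ, mul_comm]
    exact Nat.mul_le_mul_left 2 (Nat.pow_log_le_self 2 (by omega))
  have hCk : C k t ≤ 5 * k ^ 2 := by
    unfold C
    have : 2 ^ t * k ≤ 2 * k * k := Nat.mul_le_mul_right _ ht2
    nlinarith
  have hk23 : 5 * k ^ 2 ≤ n := by
    refine le_trans ?_ hK5
    apply Nat.mul_le_mul_left
    exact Nat.pow_le_pow_right (by omega) (by norm_num)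
  have hn1 : 2 ^ t * (k + 1) ≤ n := by
    have h1 : 2 ^ t * (k + 1) ≤ 2 * k * (k + 1) := Nat.mul_le_mul_right _ ht2
    refine le_trans h1 (le_trans ?_ hk23)
    nlinarith
  have h := lower_P n k t ht1 hk hn1 (le_trans hCk hk23)
  have hkR : (3 : ℝ) ≤ k := by exact_mod_cast hk
  have hnR : (5 : ℝ) * k ^ 2 ≤ n := by exact_mod_cast hk23
  have hn' : (0 : ℝ) < n := by nlinarith
  have hCR : (C k t : ℝ) ≤ 5 * k ^ 2 := by exact_mod_cast hCk
  rw [le_div_iff₀ (by positivity)]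
  refine le_trans ?_ h
  have e1 : 1 / 27 * ((n : ℝ) - C k t) ^ k = 1 / 27 * (1 - (C k t : ℝ) / n) ^ k * n ^ k := by
    rw [mul_assoc, ← mul_pow]
    congr 2
    field_simp
  rw [e1]
  apply mul_le_mul_of_nonneg_right _ (by positivity)
  have hb : (C k t : ℝ) / n ≤ 1 := by
    rw [div_le_one hn']; linarith
  have hbern := one_add_mul_le_pow (a := -((C k t : ℝ) / n)) (by linarith) k
  have e2 : (1 + -((C k t : ℝ) / n)) = 1 - (C k t : ℝ) / n := by ring
  rw [e2] at hbern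
  have e3 : (k : ℝ) * ((C k t : ℝ) / n) ≤ 5 * ε := by
    have h1 : (K0 : ℝ) * k ^ 3 ≤ n := by exact_mod_cast hKK
    have h2 : 1 / ε * k ^ 3 ≤ n := le_trans (mul_le_mul_of_nonneg_right hK0 (by positivity)) h1
    have h3 : (k : ℝ) ^ 3 ≤ ε * n := by
      rw [div_mul_eq_mul_div, one_mul, div_le_iff₀ hε] at h2
      linarith
    rw [mul_div_assoc', div_le_iff₀ hn']
    have h4 : (k : ℝ) * C k t ≤ k * (5 * k ^ 2) := mul_le_mul_of_nonneg_left hCR (by linarith)
    nlinarith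
  nlinarith

/-- `P(n,k)/n^k → 1/27` uniformly for `k ≥ 3`, `k³ / n → 0`. -/
theorem P_unif (ε : ℝ) (hε : 0 < ε) :
    ∃ K : ℕ, ∀ n k : ℕ, 3 ≤ k → K * k ^ 3 ≤ n → |(P n k : ℝ) / (n : ℝ) ^ k - 1 / 27| ≤ ε := by
  obtain ⟨K1, hK1⟩ := lower_unif ε hε
  obtain ⟨K2, hK2⟩ := prod_upper_unif ε hε
  refine ⟨max K1 K2, ?_⟩
  intro n k hk hn
  have h1 := hK1 n k hk (le_trans (Nat.mul_le_mul_right _ (le_max_left _ _)) hn)
  have h2 : (P n k : ℝ) / (n : ℝ) ^ k ≤ 1 / 27 + ε := by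
    rcases P_eq n k with h | ⟨G, hG, h⟩
    · rw [h]; simp; linarith
    · have h2 := hK2 n k (by omega) (le_trans (Nat.mul_le_mul_right _ (le_max_right _ _)) hn) G hG
      have h3 : (P n k : ℝ) / (n : ℝ) ^ k = ∏ i, ((totalDomNumber (G i) : ℝ) / n) := by
        rw [h, Finset.prod_div_distrib]
        push_cast
        simp
      rw [h3]
      exact h2
  rw [abs_le]
  constructor <;> linarith

/-- For every fixed `k ≥ 3`, `P(n,k) / n^k → 1/27`. -/
theorem tendsto_P (k : ℕ) (hk : 3 ≤ k) :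
    Tendsto (fun n : ℕ => (P n k : ℝ) / (n : ℝ) ^ k) atTop (𝓝 (1 / 27)) := by
  rw [Metric.tendsto_atTop]
  intro ε hε
  obtain ⟨K, hK⟩ := P_unif (ε / 2) (by linarith)
  refine ⟨K * k ^ 3, fun n hn => ?_⟩
  rw [Real.dist_eq]
  linarith [hK n k hk hn]

end Pool.Agent.H312TD
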