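import Mathlib

namespace Pool.Agent.H312TD

open Finset

/-- The total domination number: the least size of a set `S` of vertices such that every vertex
(including those in `S`) has a neighbour in `S`. -/
noncomputable def totalDomNumber {n : ℕ} (G : SimpleGraph (Fin n)) : ℕ :=
  sInf {m | ∃ S : Finset (Fin n), S.card = m ∧ ∀ v, ∃ u ∈ S, G.Adj v u}

/-- `G 0, …, G (k-1)` is a `k`-factorization of `K_n` (pairwise disjoint edge sets whose union is
all of `K_n`) in which every factor has minimum degree at least `1`. -/
structure IsFactorization {n k : ℕ} (G : Fin k → SimpleGraph (Fin n)) : Prop where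
  disj : ∀ i j, i ≠ j → ∀ u v, (G i).Adj u v → ¬ (G j).Adj u v
  cover : ∀ u v, u ≠ v → ∃ i, (G i).Adj u v
  minDeg : ∀ i v, ∃ u, (G i).Adj v u

/-- `P(n,k)`: the maximum of `∏ γ_t(G_j)` over all `k`-factorizations of `K_n` with minimum
degrees at least `1` (and `0` if there is none). -/
noncomputable def P (n k : ℕ) : ℕ :=
  sSup {p | ∃ G : Fin k → SimpleGraph (Fin n), IsFactorization G ∧
    p = ∏ i, totalDomNumber (G i)}

end Pool.Agent.H312TD
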