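import Pool.Agent.H312TD.Defs

namespace Pool.Agent.H312TD

open Finset Classical

variable {n : ℕ}

lemma totalDomNumber_le (G : SimpleGraph (Fin n)) (S : Finset (Fin n))
    (h : ∀ v, ∃ u ∈ S, G.Adj v u) : totalDomNumber G ≤ S.card :=
  Nat.sInf_le ⟨S, rfl, h⟩

lemma exists_totalDom (G : SimpleGraph (Fin n)) (h : ∀ v, ∃ u, G.Adj v u) :
    ∃ S : Finset (Fin n), S.card = totalDomNumber G ∧ ∀ v, ∃ u ∈ S, G.Adj v u := by
  have hne : {m | ∃ S : Finset (Fin n), S.card = m ∧ ∀ v, ∃ u ∈ S, G.Adj v u}.Nonempty := by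
    refine ⟨_, Finset.univ, rfl, ?_⟩
    intro v
    obtain ⟨u, hu⟩ := h v
    exact ⟨u, Finset.mem_univ u, hu⟩
  exact Nat.sInf_mem hne

lemma totalDomNumber_le_n (G : SimpleGraph (Fin n)) (h : ∀ v, ∃ u, G.Adj v u) :
    totalDomNumber G ≤ n := by
  have := totalDomNumber_le G Finset.univ (fun v => by
    obtain ⟨u, hu⟩ := h v
    exact ⟨u, Finset.mem_univ u, hu⟩)
  simpa using this

/-- degree as the size of a filter. -/
noncomputable def deg (G : SimpleGraph (Fin n)) (v : Fin n) : ℕ :=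
  (Finset.univ.filter (fun u => G.Adj v u)).card

/-- One greedy step. -/
lemma greedy_step (G : SimpleGraph (Fin n)) (δ : ℝ) (U : Finset (Fin n))
    (hU : ∀ v ∈ U, δ * n ≤ deg G v) :
    U = ∅ ∨ ∃ x, ((U.filter (fun v => ¬ G.Adj v x)).card : ℝ) ≤ (1 - δ) * U.card := by
  by_cases hUe : U = ∅
  · exact Or.inl hUe
  right
  obtain ⟨v0, hv0⟩ := Finset.nonempty_iff_ne_empty.2 hUe
  have hn : 0 < n := Fin.pos v0
  by_contra hcon
  push Not at hcon
  have h1 : ∑ x : Fin n, ((1 - δ) * (U.card : ℝ)) < ∑ x : Fin n, ((U.filter (fun v => ¬ G.Adj v x)).card : ℝ) := by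
    apply Finset.sum_lt_sum_of_nonempty ⟨v0, Finset.mem_univ _⟩
    intro x _
    exact hcon x
  have h2 : ∑ x : Fin n, ((U.filter (fun v => ¬ G.Adj v x)).card : ℝ)
      = ∑ v ∈ U, ((n : ℝ) - deg G v) := by
    have e1 : ∀ x : Fin n, ((U.filter (fun v => ¬ G.Adj v x)).card : ℝ)
        = ∑ v ∈ U, (if G.Adj v x then (0:ℝ) else 1) := by
      intro x
      rw [Finset.card_filter]
      push_cast
      apply Finset.sum_congr rfl
      intro v _
      by_cases h : G.Adj v x <;> simp [h]
    rw [Finset.sum_congr rfl (fun x _ => e1 x), Finset.sum_comm]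
    apply Finset.sum_congr rfl
    intro v _
    have e2 : ∑ x : Fin n, (if G.Adj v x then (0:ℝ) else 1) = ∑ x : Fin n, ((1:ℝ) - (if G.Adj v x then 1 else 0)) := by
      apply Finset.sum_congr rfl
      intro x _
      by_cases h : G.Adj v x <;> simp [h]
    rw [e2, Finset.sum_sub_distrib]
    unfold deg
    rw [Finset.card_filter]
    simp
  rw [h2] at h1
  have h3 : ∑ v ∈ U, ((n : ℝ) - deg G v) ≤ ∑ v ∈ U, ((n : ℝ) - δ * n) := by
    apply Finset.sum_le_sum
    intro v hv
    linarith [hU v hv]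
  simp only [Finset.sum_const, Finset.card_univ, Fintype.card_fin, nsmul_eq_mul] at h1 h3
  nlinarith

lemma greedy (G : SimpleGraph (Fin n)) (δ : ℝ) (hδ1 : δ ≤ 1) (m : ℕ) (U : Finset (Fin n))
    (hU : ∀ v ∈ U, δ * n ≤ deg G v) :
    ∃ T : Finset (Fin n), T.card ≤ m ∧
      ((U.filter (fun v => ∀ u ∈ T, ¬ G.Adj v u)).card : ℝ) ≤ (1 - δ) ^ m * U.card := by
  induction m generalizing U with
  | zero => exact ⟨∅, by simp, by simp⟩
  | succ m ih =>
    rcases greedy_step G δ U hU with h | ⟨x, hx⟩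
    · subst h
      exact ⟨∅, by simp, by simp⟩
    · obtain ⟨T, hT1, hT2⟩ := ih (U.filter (fun v => ¬ G.Adj v x)) (by
        intro v hv; exact hU v (Finset.mem_filter.1 hv).1)
      refine ⟨insert x T, ?_, ?_⟩
      · exact le_trans (Finset.card_insert_le _ _) (by omega)
      · have e1 : U.filter (fun v => ∀ u ∈ insert x T, ¬ G.Adj v u)
            = (U.filter (fun v => ¬ G.Adj v x)).filter (fun v => ∀ u ∈ T, ¬ G.Adj v u) := by
          ext v
          simp only [Finset.mem_filter, Finset.mem_insert, forall_eq_or_imp]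
          tauto
        rw [e1]
        refine le_trans hT2 ?_
        have h3 : 0 ≤ (1 - δ) ^ m := pow_nonneg (by linarith) m
        calc (1 - δ) ^ m * ((U.filter (fun v => ¬ G.Adj v x)).card : ℝ)
            ≤ (1 - δ) ^ m * ((1 - δ) * U.card) := mul_le_mul_of_nonneg_left hx h3
          _ = (1 - δ) ^ (m + 1) * U.card := by ring

/-- Total domination number is at most the number of low-degree vertices plus a small error. -/
lemma totalDomNumber_le_low (G : SimpleGraph (Fin n)) (hG : ∀ v, ∃ u, G.Adj v u)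
    (δ : ℝ) (hδ1 : δ ≤ 1) (m : ℕ) :
    (totalDomNumber G : ℝ) ≤ ((Finset.univ.filter (fun v => ¬ (δ * n ≤ deg G v))).card : ℝ)
      + m + (1 - δ) ^ m * n := by
  set B := Finset.univ.filter (fun v => δ * n ≤ (deg G v : ℝ)) with hB
  obtain ⟨T, hT1, hT2⟩ := greedy G δ hδ1 m B (by
    intro v hv; exact (Finset.mem_filter.1 hv).2)
  choose nb hnb using hG
  set L := Finset.univ.filter (fun v => ¬ (δ * n ≤ (deg G v : ℝ))) with hL
  set R := B.filter (fun v => ∀ u ∈ T, ¬ G.Adj v u) with hR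
  set S := (L.image nb ∪ T) ∪ R.image nb with hS
  have hdom : ∀ v, ∃ u ∈ S, G.Adj v u := by
    intro v
    by_cases hv : δ * n ≤ (deg G v : ℝ)
    · have hvB : v ∈ B := Finset.mem_filter.2 ⟨Finset.mem_univ _, hv⟩
      by_cases h2 : ∀ u ∈ T, ¬ G.Adj v u
      · refine ⟨nb v, ?_, hnb v⟩
        apply Finset.mem_union_right
        exact Finset.mem_image_of_mem _ (Finset.mem_filter.2 ⟨hvB, h2⟩)
      · push Not at h2
        obtain ⟨u, huT, hu⟩ := h2
        exact ⟨u, Finset.mem_union_left _ (Finset.mem_union_right _ huT), hu⟩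
    · refine ⟨nb v, ?_, hnb v⟩
      apply Finset.mem_union_left
      apply Finset.mem_union_left
      exact Finset.mem_image_of_mem _ (Finset.mem_filter.2 ⟨Finset.mem_univ _, hv⟩)
  have h1 := totalDomNumber_le G S hdom
  have h2 : S.card ≤ L.card + m + R.card := by
    have a1 := Finset.card_union_le (L.image nb ∪ T) (R.image nb)
    have a2 := Finset.card_union_le (L.image nb) T
    have a3 : (L.image nb).card ≤ L.card := Finset.card_image_le
    have a4 : (R.image nb).card ≤ R.card := Finset.card_image_le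
    rw [← hS] at a1
    omega
  have h3 : (totalDomNumber G : ℝ) ≤ (L.card : ℝ) + m + R.card := by exact_mod_cast le_trans h1 h2
  have h4 : (B.card : ℝ) ≤ n := by
    have : B.card ≤ (Finset.univ : Finset (Fin n)).card := Finset.card_le_card (Finset.filter_subset _ _)
    simp only [Finset.card_univ, Fintype.card_fin] at this
    exact_mod_cast this
  have h5 : 0 ≤ (1 - δ) ^ m := pow_nonneg (by linarith) m
  have h6 : (R.card : ℝ) ≤ (1 - δ) ^ m * n := le_trans hT2 (mul_le_mul_of_nonneg_left h4 h5)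
  linarith

end Pool.Agent.H312TD
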