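import Pool.Agent.H312TD.Analysis

namespace Pool.Agent.H312TD

open Finset

section
variable {k : ℕ}

/-- marginal of a weight function on subsets. -/
noncomputable def marg (w : Finset (Fin k) → ℝ) (i : Fin k) : ℝ :=
  ∑ S : Finset (Fin k), if i ∈ S then w S else 0

lemma marg_nonneg (w : Finset (Fin k) → ℝ) (h0 : ∀ S, 0 ≤ w S) (i : Fin k) : 0 ≤ marg w i := by
  unfold marg
  apply Finset.sum_nonneg
  intro S _
  split_ifs
  · exact h0 S
  · exact le_rfl

lemma marg_le_one (w : Finset (Fin k) → ℝ) (h0 : ∀ S, 0 ≤ w S) (h1 : ∑ S, w S = 1) (i : Fin k) :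
    marg w i ≤ 1 := by
  rw [← h1]
  unfold marg
  apply Finset.sum_le_sum
  intro S _
  split_ifs
  · exact le_rfl
  · exact h0 S

lemma sum_marg (w : Finset (Fin k) → ℝ) : ∑ i, marg w i = ∑ S, w S * (S.card : ℝ) := by
  unfold marg
  rw [Finset.sum_comm]
  apply Finset.sum_congr rfl
  intro S _
  rw [← Finset.sum_filter]
  simp [mul_comm]

lemma sum_marg_mul (w v : Finset (Fin k) → ℝ) (I : Finset (Fin k)) :
    ∑ i ∈ I, marg w i * marg v i = ∑ S, ∑ T, w S * v T * (((S ∩ T) ∩ I).card : ℝ) := by
  unfold marg
  simp_rw [Finset.sum_mul_sum]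
  rw [Finset.sum_comm]
  apply Finset.sum_congr rfl
  intro S _
  rw [Finset.sum_comm]
  apply Finset.sum_congr rfl
  intro T _
  have : ∀ i ∈ I, (if i ∈ S then w S else 0) * (if i ∈ T then v T else 0)
      = if i ∈ S ∩ T then w S * v T else 0 := by
    intro i _
    by_cases h1 : i ∈ S <;> by_cases h2 : i ∈ T <;> simp [h1, h2]
  rw [Finset.sum_congr rfl this, ← Finset.sum_filter, Finset.sum_const, nsmul_eq_mul]
  have h3 : Finset.filter (fun i => i ∈ S ∩ T) I = (S ∩ T) ∩ I := by
    ext i; simp only [Finset.mem_filter, Finset.mem_inter]; tauto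
  rw [h3]; ring

/-- The extremal inequality for intersecting families. -/
theorem prod_one_sub_marg_le (w : Finset (Fin k) → ℝ) (h0 : ∀ S, 0 ≤ w S) (h1 : ∑ S, w S = 1)
    (hI : ∀ S T, w S ≠ 0 → w T ≠ 0 → (S ∩ T).Nonempty) :
    ∏ i, (1 - marg w i) ≤ 1 / 27 := by
  by_cases hc : ∃ S, w S ≠ 0 ∧ S.card ≤ 2
  · obtain ⟨S, hS, hcard⟩ := hc
    have hne : S.Nonempty := by
      have := hI S S hS hS
      simpa using this
    obtain ⟨a, ha⟩ := hne
    -- if S = {a} then product zero
    by_cases hsing : S = {a}
    · have hall : ∀ T, w T ≠ 0 → a ∈ T := by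
        intro T hT
        obtain ⟨x, hx⟩ := hI S T hS hT
        rw [hsing] at hx
        simp only [Finset.mem_inter, Finset.mem_singleton] at hx
        rw [← hx.1]; exact hx.2
      have : marg w a = 1 := by
        rw [← h1]
        unfold marg
        apply Finset.sum_congr rfl
        intro T _
        split_ifs with h
        · rfl
        · by_contra hne
          exact h (hall T (Ne.symm hne))
      rw [Finset.prod_eq_zero (Finset.mem_univ a) (by rw [this]; ring)]
      norm_num
    · have : ∃ b, b ≠ a ∧ S = {a, b} := by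
        have h2 : 1 ≤ (S.erase a).card := by
          rw [Nat.one_le_iff_ne_zero]
          intro h
          rw [Finset.card_eq_zero] at h
          apply hsing
          ext x
          simp only [Finset.mem_singleton]
          constructor
          · intro hx
            by_contra hxa
            have : x ∈ S.erase a := Finset.mem_erase.2 ⟨hxa, hx⟩
            rw [h] at this
            simp at this
          · rintro rfl; exact ha
        have h3 : (S.erase a).card = 1 := by
          rw [Finset.card_erase_of_mem ha] at h2 ⊢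
          omega
        obtain ⟨b, hb⟩ := Finset.card_eq_one.1 h3
        refine ⟨b, ?_, ?_⟩
        · have : b ∈ S.erase a := by rw [hb]; simp
          exact (Finset.mem_erase.1 this).1
        · rw [← Finset.insert_erase ha, hb]
      obtain ⟨b, hba, hSab⟩ := this
      have hall : ∀ T, w T ≠ 0 → a ∈ T ∨ b ∈ T := by
        intro T hT
        obtain ⟨x, hx⟩ := hI S T hS hT
        rw [hSab] at hx
        simp only [Finset.mem_inter, Finset.mem_singleton, Finset.mem_insert] at hx
        rcases hx with ⟨rfl | rfl, h⟩
        · exact Or.inl h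
        · exact Or.inr h
      -- weights avoiding a, b
      set wa : Finset (Fin k) → ℝ := fun T => if a ∈ T then 0 else w T with hwa
      set wb : Finset (Fin k) → ℝ := fun T => if b ∈ T then 0 else w T with hwb
      have hwa0 : ∀ T, 0 ≤ wa T := by
        intro T; simp only [hwa]; split_ifs
        · exact le_rfl
        · exact h0 T
      have hwb0 : ∀ T, 0 ≤ wb T := by
        intro T; simp only [hwb]; split_ifs
        · exact le_rfl
        · exact h0 T
      have hqa : 1 - marg w a = ∑ T, wa T := by
        rw [← h1]; unfold marg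
        rw [← Finset.sum_sub_distrib]
        apply Finset.sum_congr rfl
        intro T _
        simp only [hwa]
        split_ifs <;> ring
      have hqb : 1 - marg w b = ∑ T, wb T := by
        rw [← h1]; unfold marg
        rw [← Finset.sum_sub_distrib]
        apply Finset.sum_congr rfl
        intro T _
        simp only [hwb]
        split_ifs <;> ring
      set I : Finset (Fin k) := (Finset.univ.erase a).erase b with hIdef
      have hmem : ∀ x, x ≠ a → x ≠ b → x ∈ I := by
        intro x h2 h3
        simp [hIdef, h2, h3]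
      have hkey : (1 - marg w a) * (1 - marg w b) ≤ ∑ i ∈ I, marg wa i * marg wb i := by
        rw [hqa, hqb, sum_marg_mul, Finset.sum_mul_sum]
        apply Finset.sum_le_sum
        intro T _
        apply Finset.sum_le_sum
        intro U _
        by_cases hT : wa T = 0
        · rw [hT]; simp
        by_cases hU : wb U = 0
        · rw [hU]; simp
        have haT : a ∉ T := by
          intro h; apply hT; simp [hwa, h]
        have hbU : b ∉ U := by
          intro h; apply hU; simp [hwb, h]
        have hwT : w T ≠ 0 := by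
          intro h; apply hT; simp [hwa, h]
        have hwU : w U ≠ 0 := by
          intro h; apply hU; simp [hwb, h]
        obtain ⟨x, hx⟩ := hI T U hwT hwU
        rw [Finset.mem_inter] at hx
        have hxI : x ∈ (T ∩ U) ∩ I := by
          rw [Finset.mem_inter, Finset.mem_inter]
          refine ⟨hx, hmem x ?_ ?_⟩
          · rintro rfl; exact haT hx.1
          · rintro rfl; exact hbU hx.2
        have hc1 : 1 ≤ ((T ∩ U) ∩ I).card := Finset.card_pos.2 ⟨x, hxI⟩
        have hc2 : (1 : ℝ) ≤ (((T ∩ U) ∩ I).card : ℝ) := by exact_mod_cast hc1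
        have hpos : 0 ≤ wa T * wb U := mul_nonneg (hwa0 T) (hwb0 U)
        nlinarith
      have hsum : ∀ i, marg wa i + marg wb i ≤ marg w i := by
        intro i
        unfold marg
        rw [← Finset.sum_add_distrib]
        apply Finset.sum_le_sum
        intro T _
        by_cases hiT : i ∈ T
        · simp only [hiT, if_true]
          by_cases hwT : w T = 0
          · simp [hwa, hwb, hwT]
          · rcases hall T hwT with h | h
            · simp only [hwa, hwb, h, if_true]
              split_ifs
              · simpa using h0 T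
              · simp
            · simp only [hwa, hwb, h, if_true]
              split_ifs
              · simpa using h0 T
              · simp
        · simp [hiT]
      have hkey2 : (1 - marg w a) * (1 - marg w b) ≤ 1 / 4 * ∑ i ∈ I, marg w i ^ 2 := by
        refine le_trans hkey ?_
        rw [Finset.mul_sum]
        apply Finset.sum_le_sum
        intro i _
        have h2 := hsum i
        have h3 := marg_nonneg wa hwa0 i
        have h4 := marg_nonneg wb hwb0 i
        nlinarith [sq_nonneg (marg wa i - marg wb i)]
      have hprod : ∏ i, (1 - marg w i) =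
          ((1 - marg w a) * (1 - marg w b)) * ∏ i ∈ I, (1 - marg w i) := by
        rw [← Finset.mul_prod_erase Finset.univ (fun i => 1 - marg w i) (Finset.mem_univ a),
          ← Finset.mul_prod_erase (Finset.univ.erase a) (fun i => 1 - marg w i)
            (Finset.mem_erase.2 ⟨hba, Finset.mem_univ b⟩)]
        ring
      rw [hprod]
      have hfin := sum_sq_mul_prod_le I (marg w) (fun i _ => marg_nonneg w h0 i)
        (fun i _ => marg_le_one w h0 h1 i)
      have hPn : 0 ≤ ∏ i ∈ I, (1 - marg w i) := by
        apply Finset.prod_nonneg; intro i _; linarith [marg_le_one w h0 h1 i]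
      calc ((1 - marg w a) * (1 - marg w b)) * ∏ i ∈ I, (1 - marg w i)
          ≤ (1 / 4 * ∑ i ∈ I, marg w i ^ 2) * ∏ i ∈ I, (1 - marg w i) :=
            mul_le_mul_of_nonneg_right hkey2 hPn
        _ = 1 / 4 * ((∑ i ∈ I, marg w i ^ 2) * ∏ i ∈ I, (1 - marg w i)) := by ring
        _ ≤ 1 / 4 * (4 / 27) := mul_le_mul_of_nonneg_left hfin (by norm_num)
        _ = 1 / 27 := by norm_num
  · push Not at hc
    have hs1 : 3 ≤ ∑ i, marg w i := by
      rw [sum_marg]
      calc (3 : ℝ) = ∑ S, w S * 3 := by rw [← Finset.sum_mul, h1]; ring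
        _ ≤ _ := by
          apply Finset.sum_le_sum
          intro S _
          by_cases hS : w S = 0
          · rw [hS]; simp
          · have h3 : 3 ≤ S.card := hc S hS
            have h4 : (3 : ℝ) ≤ (S.card : ℝ) := by exact_mod_cast h3
            exact mul_le_mul_of_nonneg_left h4 (h0 S)
    have hs2 : 1 ≤ ∑ i, marg w i ^ 2 := by
      have : ∑ i, marg w i ^ 2 = ∑ i, marg w i * marg w i := by
        apply Finset.sum_congr rfl; intro i _; ring
      rw [this, sum_marg_mul]
      calc (1 : ℝ) = (∑ S, w S) * (∑ T, w T) := by rw [h1]; ring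
        _ = ∑ S, ∑ T, w S * w T := Finset.sum_mul_sum _ _ _ _
        _ ≤ _ := by
          apply Finset.sum_le_sum
          intro S _
          apply Finset.sum_le_sum
          intro T _
          by_cases hS : w S = 0
          · rw [hS]; simp
          by_cases hT : w T = 0
          · rw [hT]; simp
          have h3 : 1 ≤ ((S ∩ T) ∩ Finset.univ).card := by
            rw [Finset.inter_univ]
            exact Finset.card_pos.2 (hI S T hS hT)
          have h4 : (1 : ℝ) ≤ (((S ∩ T) ∩ Finset.univ).card : ℝ) := by exact_mod_cast h3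
          have hpos : 0 ≤ w S * w T := mul_nonneg (h0 S) (h0 T)
          nlinarith
    have h3 : ∏ i, (1 - marg w i) ≤ Real.exp (-(∑ i, marg w i + (∑ i, marg w i ^ 2) / 2)) := by
      have : Real.exp (-(∑ i, marg w i + (∑ i, marg w i ^ 2) / 2))
          = ∏ i, Real.exp (-(marg w i + marg w i ^ 2 / 2)) := by
        rw [← Real.exp_sum]; congr 1
        rw [Finset.sum_neg_distrib, Finset.sum_add_distrib, Finset.sum_div]
      rw [this]
      apply Finset.prod_le_prod
      · intro i _; linarith [marg_le_one w h0 h1 i]
      · intro i _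
        exact one_sub_le_exp_two _ (marg_nonneg w h0 i) (marg_le_one w h0 h1 i)
    refine le_trans h3 (le_trans ?_ exp_neg_seven_halves)
    apply Real.exp_le_exp.2
    linarith

/-- perturbation of a product. -/
lemma prod_add_le {ι : Type*} (s : Finset ι) (x : ι → ℝ) (z : ℝ) (hz : 0 ≤ z)
    (h0 : ∀ i, 0 ≤ x i) (h1 : ∀ i, x i ≤ 1) :
    ∏ i ∈ s, (x i + z) ≤ ∏ i ∈ s, x i + ((1 + z) ^ s.card - 1) := by
  classical
  induction s using Finset.induction_on with
  | empty => simp
  | insert a s ha ih =>
    rw [Finset.prod_insert ha, Finset.prod_insert ha, Finset.card_insert_of_notMem ha]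
    have hP1 : ∏ i ∈ s, x i ≤ 1 := Finset.prod_le_one (fun i _ => h0 i) (fun i _ => h1 i)
    have hP0 : 0 ≤ ∏ i ∈ s, x i := Finset.prod_nonneg (fun i _ => h0 i)
    have hA : 1 ≤ (1 + z) ^ s.card := one_le_pow₀ (by linarith)
    have hx0 := h0 a
    have hx1 := h1 a
    calc (x a + z) * ∏ i ∈ s, (x i + z)
        ≤ (x a + z) * (∏ i ∈ s, x i + ((1 + z) ^ s.card - 1)) :=
          mul_le_mul_of_nonneg_left ih (by linarith)
      _ = x a * ∏ i ∈ s, x i + z * ∏ i ∈ s, x i + (x a + z) * ((1 + z) ^ s.card - 1) := by ring
      _ ≤ x a * ∏ i ∈ s, x i + z * 1 + (1 + z) * ((1 + z) ^ s.card - 1) := by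
          have e1 : z * ∏ i ∈ s, x i ≤ z * 1 := mul_le_mul_of_nonneg_left hP1 hz
          have e2 : (x a + z) * ((1 + z) ^ s.card - 1) ≤ (1 + z) * ((1 + z) ^ s.card - 1) :=
            mul_le_mul_of_nonneg_right (by linarith) (by linarith)
          linarith
      _ = x a * ∏ i ∈ s, x i + ((1 + z) ^ (s.card + 1) - 1) := by ring

end

end Pool.Agent.H312TD
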