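import Pool.Agent.H312TD.Sum

namespace Pool.Agent.H312TD

open Finset Classical

variable {n k : ℕ}

noncomputable def Nb (G : SimpleGraph (Fin n)) (v : Fin n) : Finset (Fin n) :=
  Finset.univ.filter (fun u => G.Adj v u)

lemma mem_Nb (G : SimpleGraph (Fin n)) (v u : Fin n) : u ∈ Nb G v ↔ G.Adj v u := by
  unfold Nb; simp

lemma card_Nb (G : SimpleGraph (Fin n)) (v : Fin n) : (Nb G v).card = deg G v := rfl

lemma conflict_card (G : SimpleGraph (Fin n)) (h2 : ∀ v, deg G v ≤ 2) (t : Fin n) :
    (Finset.univ.filter (fun w => (Nb G w ∩ Nb G t).Nonempty)).card ≤ 3 := by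
  have hsub : Finset.univ.filter (fun w => (Nb G w ∩ Nb G t).Nonempty) ⊆
      insert t ((Nb G t).biUnion (fun x => (Nb G x).erase t)) := by
    intro w hw
    obtain ⟨x, hx⟩ := (Finset.mem_filter.1 hw).2
    rw [Finset.mem_inter, mem_Nb, mem_Nb] at hx
    by_cases hwt : w = t
    · rw [hwt]; exact Finset.mem_insert_self _ _
    · apply Finset.mem_insert_of_mem
      rw [Finset.mem_biUnion]
      exact ⟨x, (mem_Nb G t x).2 hx.2, Finset.mem_erase.2 ⟨hwt, (mem_Nb G x w).2 hx.1.symm⟩⟩
  have h3 : ((Nb G t).biUnion (fun x => (Nb G x).erase t)).card ≤ ∑ x ∈ Nb G t, 1 := by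
    refine le_trans Finset.card_biUnion_le ?_
    apply Finset.sum_le_sum
    intro x hx
    rw [mem_Nb] at hx
    rw [Finset.card_erase_of_mem ((mem_Nb G x t).2 hx.symm), card_Nb]
    have := h2 x
    omega
  have h4 : ∑ x ∈ Nb G t, 1 ≤ 2 := by
    rw [Finset.sum_const, smul_eq_mul, mul_one, card_Nb]; exact h2 t
  have h5 := Finset.card_le_card hsub
  have h6 := Finset.card_insert_le t ((Nb G t).biUnion (fun x => (Nb G x).erase t))
  omega

lemma packing (G : SimpleGraph (Fin n)) (h2 : ∀ v, deg G v ≤ 2) (U : Finset (Fin n))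
    (hU : ∀ v ∈ U, deg G v = 2) :
    ∃ T ⊆ U, U.card ≤ 3 * T.card ∧ 2 * T.card ≤ (nbhd G T).card := by
  induction U using Finset.strongInduction with
  | H U ih =>
    by_cases hUe : U = ∅
    · exact ⟨∅, by simp, by simp [hUe], by simp⟩
    obtain ⟨t, ht⟩ := Finset.nonempty_iff_ne_empty.2 hUe
    set U' := U.filter (fun w => ¬ (Nb G w ∩ Nb G t).Nonempty) with hU'
    have htU' : t ∉ U' := by
      intro h
      rw [hU', Finset.mem_filter] at h
      apply h.2
      rw [Finset.inter_self, ← Finset.card_pos, card_Nb, hU t ht]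
      norm_num
    have hss : U' ⊂ U := by
      refine ⟨Finset.filter_subset _ _, ?_⟩
      intro h
      exact htU' (h ht)
    obtain ⟨T, hTU, hT1, hT2⟩ := ih U' hss (fun v hv => hU v (Finset.filter_subset _ _ hv))
    have htT : t ∉ T := fun h => htU' (hTU h)
    refine ⟨insert t T, ?_, ?_, ?_⟩
    · intro x hx
      rcases Finset.mem_insert.1 hx with rfl | hx
      · exact ht
      · exact Finset.filter_subset _ _ (hTU hx)
    · rw [Finset.card_insert_of_notMem htT]
      have h3 : U.card ≤ U'.card + 3 := by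
        have h4 := Finset.card_filter_add_card_filter_not (s := U) (fun w => (Nb G w ∩ Nb G t).Nonempty)
        have h5 : (U.filter (fun w => (Nb G w ∩ Nb G t).Nonempty)).card ≤ 3 :=
          le_trans (Finset.card_le_card (Finset.filter_subset_filter _ (Finset.subset_univ U)))
            (conflict_card G h2 t)
        rw [← hU'] at h4
        omega
      omega
    · rw [Finset.card_insert_of_notMem htT]
      have h3 : Nb G t ∪ nbhd G T ⊆ nbhd G (insert t T) := by
        intro u hu
        unfold nbhd
        rw [Finset.mem_filter]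
        refine ⟨Finset.mem_univ _, ?_⟩
        rcases Finset.mem_union.1 hu with h | h
        · exact ⟨t, Finset.mem_insert_self _ _, ((mem_Nb G t u).1 h).symm⟩
        · obtain ⟨x, hx, hux⟩ := (Finset.mem_filter.1 h).2
          exact ⟨x, Finset.mem_insert_of_mem hx, hux⟩
      have hdisj : Disjoint (Nb G t) (nbhd G T) := by
        rw [Finset.disjoint_left]
        intro u hu1 hu2
        obtain ⟨x, hx, hux⟩ := (Finset.mem_filter.1 hu2).2
        have hxU' := hTU hx
        rw [hU', Finset.mem_filter] at hxU'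
        apply hxU'.2
        exact ⟨u, Finset.mem_inter.2 ⟨(mem_Nb G x u).2 hux.symm, hu1⟩⟩
      have h4 := Finset.card_le_card h3
      rw [Finset.card_union_of_disjoint hdisj, card_Nb, hU t ht] at h4
      omega

/-- Graphs of maximum degree two: the number of degree-two vertices is at most three times
`n - γ_t`. -/
lemma deg_two_bound (G : SimpleGraph (Fin n)) (hG : ∀ v, ∃ u, G.Adj v u) (h2 : ∀ v, deg G v ≤ 2) :
    (∑ v, deg G v) + 3 * totalDomNumber G ≤ 4 * n := by
  obtain ⟨T, hTU, hT1, hT2⟩ := packing G h2 (Finset.univ.filter (fun v => deg G v = 2))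
    (fun v hv => (Finset.mem_filter.1 hv).2)
  have h3 := nbhd_add_le G hG T
  have h4 : ∑ v, deg G v = n + (Finset.univ.filter (fun v => deg G v = 2)).card := by
    rw [Finset.card_filter]
    have : ∀ v : Fin n, deg G v = 1 + (if deg G v = 2 then 1 else 0) := by
      intro v
      have a1 := h2 v
      have a2 := one_le_deg G hG v
      split_ifs <;> omega
    rw [Finset.sum_congr rfl (fun v _ => this v), Finset.sum_add_distrib]
    simp
  omega

end Pool.Agent.H312TD
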