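import Pool.Agent.H312TD.Family

namespace Pool.Agent.H312TD

open Finset Classical

variable {k : ℕ}

lemma marg_le_sum (w : Finset (Fin k) → ℝ) (h0 : ∀ S, 0 ≤ w S) (i : Fin k) :
    marg w i ≤ ∑ S, w S := by
  unfold marg
  apply Finset.sum_le_sum
  intro S _
  split_ifs
  · exact le_rfl
  · exact h0 S

lemma exp_seven_halves_ge : (30 : ℝ) ≤ Real.exp (7 / 2) := by
  have h1 : Real.exp (7 / 2) ^ 2 = Real.exp 1 ^ 7 := by
    rw [← Real.exp_nat_mul, ← Real.exp_nat_mul]; norm_num
  have h2 : (2.7 : ℝ) ≤ Real.exp 1 := by linarith [Real.exp_one_gt_d9]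
  have h3 : (2.7 : ℝ) ^ 7 ≤ Real.exp 1 ^ 7 := pow_le_pow_left₀ (by norm_num) h2 7
  have h4 : (30 : ℝ) ^ 2 ≤ Real.exp (7 / 2) ^ 2 := by
    rw [h1]; refine le_trans ?_ h3; norm_num
  have := Real.exp_pos (7 / 2)
  nlinarith

/-- Robust version of the extremal inequality: almost intersecting weights. -/
theorem robust (hk : 2 ≤ k) (w : Finset (Fin k) → ℝ) (h0 : ∀ S, 0 ≤ w S) (h1 : ∑ S, w S = 1)
    (η : ℝ) (hη : 0 < η) (hη1 : η ≤ 1 / 100)
    (hI : ∑ S, ∑ T, (if (S ∩ T).Nonempty then 0 else w S * w T) ≤ η ^ 2) :
    ∏ i, (1 - marg w i) ≤ 1 / 27 + 4 * η := by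
  have hd0 : ∀ i, 0 ≤ marg w i := marg_nonneg w h0
  have hd1 : ∀ i, marg w i ≤ 1 := marg_le_one w h0 h1
  by_cases hc : η ≤ ∑ S, (if S.card ≤ 2 then w S else 0)
  · -- there are a ≠ b with little mass avoiding both
    have hab : ∃ a b : Fin k, b ≠ a ∧ ∑ T, (if a ∉ T ∧ b ∉ T then w T else 0) ≤ η := by
      have hS : ∃ S : Finset (Fin k), S.card ≤ 2 ∧ ∑ T, (if (S ∩ T).Nonempty then 0 else w T) ≤ η := by
        by_contra hno
        push Not at hno
        have hpos : ∃ S0 ∈ (Finset.univ : Finset (Finset (Fin k))), 0 < (if S0.card ≤ 2 then w S0 else 0) := by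
          by_contra hno2
          push Not at hno2
          have := Finset.sum_nonpos hno2
          linarith
        obtain ⟨S0, _, hS0⟩ := hpos
        have hS0c : S0.card ≤ 2 := by
          by_contra h; rw [if_neg h] at hS0; exact lt_irrefl _ hS0
        have hlt : ∑ S, η * (if S.card ≤ 2 then w S else 0) <
            ∑ S, ∑ T, (if (S ∩ T).Nonempty then 0 else w S * w T) := by
          apply Finset.sum_lt_sum
          · intro S _
            have e1 : ∑ T, (if (S ∩ T).Nonempty then 0 else w S * w T)
                = w S * ∑ T, (if (S ∩ T).Nonempty then 0 else w T) := by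
              rw [Finset.mul_sum]; apply Finset.sum_congr rfl; intro T _; split_ifs <;> ring
            rw [e1]
            by_cases hSc : S.card ≤ 2
            · rw [if_pos hSc, mul_comm]
              exact mul_le_mul_of_nonneg_left (hno S hSc).le (h0 S)
            · rw [if_neg hSc, mul_zero]
              apply mul_nonneg (h0 S)
              apply Finset.sum_nonneg
              intro T _; split_ifs
              · exact le_rfl
              · exact h0 T
          · refine ⟨S0, Finset.mem_univ _, ?_⟩
            have e1 : ∑ T, (if (S0 ∩ T).Nonempty then 0 else w S0 * w T)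
                = w S0 * ∑ T, (if (S0 ∩ T).Nonempty then 0 else w T) := by
              rw [Finset.mul_sum]; apply Finset.sum_congr rfl; intro T _; split_ifs <;> ring
            rw [e1, if_pos hS0c, mul_comm]
            rw [if_pos hS0c] at hS0
            exact mul_lt_mul_of_pos_left (hno S0 hS0c) hS0
        rw [← Finset.mul_sum] at hlt
        nlinarith
      obtain ⟨S, hSc, hSη⟩ := hS
      -- S ⊆ {a, b}
      have : ∃ a b : Fin k, b ≠ a ∧ S ⊆ {a, b} := by
        obtain ⟨U, hSU, hU⟩ := Finset.exists_superset_card_eq (s := S) (n := 2) hSc (by simpa using hk)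
        obtain ⟨a, b, hne, rfl⟩ := Finset.card_eq_two.1 hU
        exact ⟨a, b, hne.symm, hSU⟩
      obtain ⟨a, b, hne, hSab⟩ := this
      refine ⟨a, b, hne, le_trans ?_ hSη⟩
      apply Finset.sum_le_sum
      intro T _
      by_cases hT : a ∉ T ∧ b ∉ T
      · rw [if_pos hT, if_neg]
        rintro ⟨x, hx⟩
        rw [Finset.mem_inter] at hx
        have := hSab hx.1
        rw [Finset.mem_insert, Finset.mem_singleton] at this
        rcases this with rfl | rfl
        · exact hT.1 hx.2
        · exact hT.2 hx.2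
      · rw [if_neg hT]
        split_ifs
        · exact le_rfl
        · exact h0 T
    obtain ⟨a, b, hba, hab⟩ := hab
    by_cases hbig : 4 ≤ ∑ i, marg w i
    · have h3 : ∏ i, (1 - marg w i) ≤ Real.exp (-(∑ i, marg w i)) := by
        have : Real.exp (-(∑ i, marg w i)) = ∏ i, Real.exp (-(marg w i)) := by
          rw [← Real.exp_sum]; congr 1; rw [Finset.sum_neg_distrib]
        rw [this]
        apply Finset.prod_le_prod
        · intro i _; linarith [hd1 i]
        · intro i _; linarith [Real.add_one_le_exp (-(marg w i))]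
      have h4 : Real.exp (-(∑ i, marg w i)) ≤ Real.exp (-(7 / 2)) := Real.exp_le_exp.2 (by linarith)
      linarith [exp_neg_seven_halves]
    push Not at hbig
    set wa : Finset (Fin k) → ℝ := fun T => if a ∈ T then 0 else w T with hwa
    set wb : Finset (Fin k) → ℝ := fun T => if b ∈ T then 0 else w T with hwb
    set wc : Finset (Fin k) → ℝ := fun T => if a ∉ T ∧ b ∉ T then w T else 0 with hwc
    have hwa0 : ∀ T, 0 ≤ wa T := by
      intro T; simp only [hwa]; split_ifs
      · exact le_rfl
      · exact h0 T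
    have hwb0 : ∀ T, 0 ≤ wb T := by
      intro T; simp only [hwb]; split_ifs
      · exact le_rfl
      · exact h0 T
    have hwc0 : ∀ T, 0 ≤ wc T := by
      intro T; simp only [hwc]; split_ifs
      · exact h0 T
      · exact le_rfl
    have hqa : 1 - marg w a = ∑ T, wa T := by
      rw [← h1]; unfold marg
      rw [← Finset.sum_sub_distrib]
      apply Finset.sum_congr rfl
      intro T _
      simp only [hwa]
      split_ifs <;> ring
    have hqb : 1 - marg w b = ∑ T, wb T := by
      rw [← h1]; unfold marg
      rw [← Finset.sum_sub_distrib]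
      apply Finset.sum_congr rfl
      intro T _
      simp only [hwb]
      split_ifs <;> ring
    set I : Finset (Fin k) := (Finset.univ.erase a).erase b with hIdef
    have hmem : ∀ x, x ≠ a → x ≠ b → x ∈ I := by
      intro x h2 h3
      simp [hIdef, h2, h3]
    have hkey : (1 - marg w a) * (1 - marg w b) ≤ ∑ i ∈ I, marg wa i * marg wb i + η ^ 2 := by
      rw [hqa, hqb, sum_marg_mul, Finset.sum_mul_sum]
      refine le_trans ?_ (add_le_add_right hI _)
      rw [← Finset.sum_add_distrib]
      apply Finset.sum_le_sum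
      intro T _
      rw [← Finset.sum_add_distrib]
      apply Finset.sum_le_sum
      intro U _
      have hrest : 0 ≤ (if (T ∩ U).Nonempty then 0 else w T * w U) := by
        split_ifs
        · exact le_rfl
        · exact mul_nonneg (h0 T) (h0 U)
      by_cases hT : wa T = 0
      · rw [hT]; simpa using hrest
      by_cases hU : wb U = 0
      · rw [hU]; simpa using hrest
      have haT : a ∉ T := by
        intro h; apply hT; simp [hwa, h]
      have hbU : b ∉ U := by
        intro h; apply hU; simp [hwb, h]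
      have e1 : wa T = w T := by simp only [hwa, haT, if_false]
      have e2 : wb U = w U := by simp only [hwb, hbU, if_false]
      have hpos : 0 ≤ wa T * wb U := mul_nonneg (hwa0 T) (hwb0 U)
      by_cases hne : (T ∩ U).Nonempty
      · obtain ⟨x, hx⟩ := hne
        rw [Finset.mem_inter] at hx
        have hxI : x ∈ (T ∩ U) ∩ I := by
          rw [Finset.mem_inter, Finset.mem_inter]
          refine ⟨hx, hmem x ?_ ?_⟩
          · rintro rfl; exact haT hx.1
          · rintro rfl; exact hbU hx.2
        have hc1 : 1 ≤ ((T ∩ U) ∩ I).card := Finset.card_pos.2 ⟨x, hxI⟩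
        have hc2 : (1 : ℝ) ≤ (((T ∩ U) ∩ I).card : ℝ) := by exact_mod_cast hc1
        nlinarith
      · rw [if_neg hne, e1, e2]
        have : 0 ≤ w T * w U * (((T ∩ U) ∩ I).card : ℝ) :=
          mul_nonneg (mul_nonneg (h0 T) (h0 U)) (Nat.cast_nonneg _)
        linarith
    have hsum : ∀ i, marg wa i + marg wb i ≤ marg w i + marg wc i := by
      intro i
      unfold marg
      rw [← Finset.sum_add_distrib, ← Finset.sum_add_distrib]
      apply Finset.sum_le_sum
      intro T _
      by_cases hiT : i ∈ T
      · simp only [hiT, if_true, hwa, hwb, hwc]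
        by_cases haT : a ∈ T <;> by_cases hbT : b ∈ T <;> simp [haT, hbT, h0 T]
      · simp [hiT]
    have hce : ∀ i, marg wc i ≤ η := fun i => le_trans (marg_le_sum wc hwc0 i) hab
    have hcd : ∀ i, marg wc i ≤ marg w i := by
      intro i
      unfold marg
      apply Finset.sum_le_sum
      intro T _
      by_cases hiT : i ∈ T
      · simp only [hiT, if_true, hwc]
        split_ifs
        · exact le_rfl
        · exact h0 T
      · simp [hiT]
    have hIsum : ∑ i ∈ I, marg w i ≤ 4 := by
      refine le_trans (Finset.sum_le_sum_of_subset_of_nonneg (Finset.subset_univ _) (fun i _ _ => hd0 i)) hbig.le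
    have hkey2 : (1 - marg w a) * (1 - marg w b) ≤ 1 / 4 * ∑ i ∈ I, marg w i ^ 2 + 4 * η := by
      refine le_trans hkey ?_
      have h5 : ∑ i ∈ I, marg wa i * marg wb i ≤ ∑ i ∈ I, (1 / 4 * marg w i ^ 2 + 3 / 4 * η * marg w i) := by
        apply Finset.sum_le_sum
        intro i _
        have h2 := hsum i
        have h3 := marg_nonneg wa hwa0 i
        have h4 := marg_nonneg wb hwb0 i
        have h5 := marg_nonneg wc hwc0 i
        have h6 := hce i
        have h7 := hcd i
        have h8 := hd0 i
        have h9 : marg wa i * marg wb i ≤ (marg w i + marg wc i) ^ 2 / 4 := by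
          nlinarith [sq_nonneg (marg wa i - marg wb i)]
        have h10 : marg w i * marg wc i ≤ marg w i * η := mul_le_mul_of_nonneg_left h6 h8
        have h11 : marg wc i * marg wc i ≤ marg w i * η := mul_le_mul h7 h6 h5 h8
        nlinarith
      rw [Finset.sum_add_distrib, ← Finset.mul_sum, ← Finset.mul_sum] at h5
      have h6 : 3 / 4 * η * ∑ i ∈ I, marg w i ≤ 3 / 4 * η * 4 :=
        mul_le_mul_of_nonneg_left hIsum (by positivity)
      nlinarith
    have hprod : ∏ i, (1 - marg w i) =
        ((1 - marg w a) * (1 - marg w b)) * ∏ i ∈ I, (1 - marg w i) := by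
      rw [← Finset.mul_prod_erase Finset.univ (fun i => 1 - marg w i) (Finset.mem_univ a),
        ← Finset.mul_prod_erase (Finset.univ.erase a) (fun i => 1 - marg w i)
          (Finset.mem_erase.2 ⟨hba, Finset.mem_univ b⟩)]
      ring
    rw [hprod]
    have hfin := sum_sq_mul_prod_le I (marg w) (fun i _ => hd0 i) (fun i _ => hd1 i)
    have hPn : 0 ≤ ∏ i ∈ I, (1 - marg w i) := by
      apply Finset.prod_nonneg; intro i _; linarith [hd1 i]
    have hP1 : ∏ i ∈ I, (1 - marg w i) ≤ 1 := by
      apply Finset.prod_le_one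
      · intro i _; linarith [hd1 i]
      · intro i _; linarith [hd0 i]
    calc ((1 - marg w a) * (1 - marg w b)) * ∏ i ∈ I, (1 - marg w i)
        ≤ (1 / 4 * ∑ i ∈ I, marg w i ^ 2 + 4 * η) * ∏ i ∈ I, (1 - marg w i) :=
          mul_le_mul_of_nonneg_right hkey2 hPn
      _ = 1 / 4 * ((∑ i ∈ I, marg w i ^ 2) * ∏ i ∈ I, (1 - marg w i))
          + 4 * η * ∏ i ∈ I, (1 - marg w i) := by ring
      _ ≤ 1 / 4 * (4 / 27) + 4 * η * 1 := by
          apply add_le_add
          · exact mul_le_mul_of_nonneg_left hfin (by norm_num)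
          · exact mul_le_mul_of_nonneg_left hP1 (by positivity)
      _ = 1 / 27 + 4 * η := by ring
  · push Not at hc
    have hs1 : 3 - 3 * η ≤ ∑ i, marg w i := by
      rw [sum_marg]
      have h2 : ∑ S, (3 * w S - 3 * (if S.card ≤ 2 then w S else 0)) ≤ ∑ S, w S * (S.card : ℝ) := by
        apply Finset.sum_le_sum
        intro S _
        by_cases hS : S.card ≤ 2
        · rw [if_pos hS]
          have : 0 ≤ w S * (S.card : ℝ) := mul_nonneg (h0 S) (Nat.cast_nonneg _)
          linarith
        · rw [if_neg hS]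
          have h3 : 3 ≤ S.card := by omega
          have h4 : (3 : ℝ) ≤ (S.card : ℝ) := by exact_mod_cast h3
          have := mul_le_mul_of_nonneg_left h4 (h0 S)
          linarith
      rw [Finset.sum_sub_distrib, ← Finset.mul_sum, ← Finset.mul_sum, h1] at h2
      linarith
    have hs2 : 1 - η ^ 2 ≤ ∑ i, marg w i ^ 2 := by
      have : ∑ i, marg w i ^ 2 = ∑ i, marg w i * marg w i := by
        apply Finset.sum_congr rfl; intro i _; ring
      rw [this, sum_marg_mul]
      have h2 : ∑ S, ∑ T, (w S * w T - (if (S ∩ T).Nonempty then 0 else w S * w T)) ≤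
          ∑ S, ∑ T, w S * w T * (((S ∩ T) ∩ Finset.univ).card : ℝ) := by
        apply Finset.sum_le_sum
        intro S _
        apply Finset.sum_le_sum
        intro T _
        have hpos : 0 ≤ w S * w T := mul_nonneg (h0 S) (h0 T)
        by_cases hne : (S ∩ T).Nonempty
        · rw [if_pos hne]
          have h3 : 1 ≤ ((S ∩ T) ∩ Finset.univ).card := by
            rw [Finset.inter_univ]
            exact Finset.card_pos.2 hne
          have h4 : (1 : ℝ) ≤ (((S ∩ T) ∩ Finset.univ).card : ℝ) := by exact_mod_cast h3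
          nlinarith
        · rw [if_neg hne]
          have : 0 ≤ w S * w T * (((S ∩ T) ∩ Finset.univ).card : ℝ) :=
            mul_nonneg hpos (Nat.cast_nonneg _)
          linarith
      simp_rw [Finset.sum_sub_distrib] at h2
      have h3 : ∑ S, ∑ T, w S * w T = 1 := by
        rw [← Finset.sum_mul_sum, h1]; ring
      rw [h3] at h2
      linarith
    have h3 : ∏ i, (1 - marg w i) ≤ Real.exp (-(∑ i, marg w i + (∑ i, marg w i ^ 2) / 2)) := by
      have : Real.exp (-(∑ i, marg w i + (∑ i, marg w i ^ 2) / 2))
          = ∏ i, Real.exp (-(marg w i + marg w i ^ 2 / 2)) := by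
        rw [← Real.exp_sum]; congr 1
        rw [Finset.sum_neg_distrib, Finset.sum_add_distrib, Finset.sum_div]
      rw [this]
      apply Finset.prod_le_prod
      · intro i _; linarith [hd1 i]
      · intro i _
        exact one_sub_le_exp_two _ (hd0 i) (hd1 i)
    have h4 : Real.exp (-(∑ i, marg w i + (∑ i, marg w i ^ 2) / 2)) ≤ Real.exp (1 / 30 - 7 / 2) := by
      apply Real.exp_le_exp.2
      nlinarith
    have h5 : Real.exp (1 / 30 - 7 / 2) ≤ 1 / 27 := by
      have h6 : Real.exp (1 / 30 - 7 / 2) * (Real.exp (7 / 2) * Real.exp (-(1 / 30))) = 1 := by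
        rw [← Real.exp_add, ← Real.exp_add]
        rw [show (1 / 30 - 7 / 2 + (7 / 2 + -(1 / 30)) : ℝ) = 0 by norm_num, Real.exp_zero]
      have h7 : (29 / 30 : ℝ) ≤ Real.exp (-(1 / 30)) := by
        linarith [Real.add_one_le_exp (-(1 / 30 : ℝ))]
      have h8 : (27 : ℝ) ≤ Real.exp (7 / 2) * Real.exp (-(1 / 30)) := by
        have := mul_le_mul exp_seven_halves_ge h7 (by norm_num) (Real.exp_pos _).le
        linarith
      have h9 := Real.exp_pos (1 / 30 - 7 / 2 : ℝ)
      nlinarith
    linarith

end Pool.Agent.H312TD
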