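import Pool.Agent.H312TD.SumBound
import Pool.Agent.H312TD.Asymp

namespace Pool.Agent.H312TD

open Finset Classical

variable {n k : ℕ}

lemma totalDomNumber_pos (hn : 0 < n) (G : SimpleGraph (Fin n)) (hG : ∀ v, ∃ u, G.Adj v u) :
    0 < totalDomNumber G := by
  obtain ⟨S, hS1, hS2⟩ := exists_totalDom G hG
  obtain ⟨u, hu, _⟩ := hS2 ⟨0, hn⟩
  rw [← hS1]
  exact Finset.card_pos.2 ⟨u, hu⟩

theorem prod_lt_bound (hn : 7 ≤ n) (hk : 3 ≤ k) (hkn : k + 2 ≤ n) (G : Fin k → SimpleGraph (Fin n))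
    (hG : IsFactorization G) :
    ∏ j, (totalDomNumber (G j) : ℝ) < ((1 - 1 / (k : ℝ)) * ((n : ℝ) + 1)) ^ k := by
  have hk3 : (3 : ℝ) ≤ k := by exact_mod_cast hk
  have hn7 : (7 : ℝ) ≤ n := by exact_mod_cast hn
  set μ : ℝ := (1 - 1 / (k : ℝ)) * ((n : ℝ) + 1) with hμ
  have hkinv : 1 / (k : ℝ) ≤ 1 / 3 := one_div_le_one_div_of_le (by norm_num) hk3
  have hμpos : 0 < μ := by rw [hμ]; apply mul_pos <;> linarith
  have hkμ : (k : ℝ) * μ = (k - 1) * (n + 1) := by rw [hμ]; field_simp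
  have hA := sum_a_ge hn hk hkn G hG
  have hsum : ∑ j, (totalDomNumber (G j) : ℝ) ≤ k * μ := by
    have h1 : ∑ j, ((n : ℤ) + 1 - totalDomNumber (G j)) = k * (n + 1) - ∑ j, (totalDomNumber (G j) : ℤ) := by
      rw [Finset.sum_sub_distrib]; simp
    rw [h1] at hA
    have h2 : ((n : ℝ) + 1) ≤ k * (n + 1) - ∑ j, (totalDomNumber (G j) : ℝ) := by exact_mod_cast hA
    rw [hkμ]; linarith
  have hex : ∃ j, (totalDomNumber (G j) : ℝ) ≠ μ := by
    by_contra hno
    push Not at hno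
    have j0 : Fin k := ⟨0, by omega⟩
    have hconst : ∀ j, (n : ℤ) + 1 - totalDomNumber (G j) = (n : ℤ) + 1 - totalDomNumber (G j0) := by
      intro j
      have : (totalDomNumber (G j) : ℝ) = totalDomNumber (G j0) := by rw [hno j, hno j0]
      have h2 : totalDomNumber (G j) = totalDomNumber (G j0) := by exact_mod_cast this
      rw [h2]
    apply not_balanced hn hk hkn G hG _ hconst
    have h3 : (k : ℝ) * (totalDomNumber (G j0) : ℝ) = (k - 1) * (n + 1) := by rw [hno j0, hkμ]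
    have h4 : (k : ℤ) * (totalDomNumber (G j0) : ℤ) = (k - 1) * (n + 1) := by exact_mod_cast h3
    linarith
  obtain ⟨j1, hj1⟩ := hex
  have hlt : ∏ j, ((totalDomNumber (G j) : ℝ) / μ) < ∏ j, Real.exp ((totalDomNumber (G j) : ℝ) / μ - 1) := by
    apply Finset.prod_lt_prod
    · intro j _
      have := totalDomNumber_pos (by omega) (G j) (hG.minDeg j)
      have h2 : (0 : ℝ) < totalDomNumber (G j) := by exact_mod_cast this
      positivity
    · intro j _
      linarith [Real.add_one_le_exp ((totalDomNumber (G j) : ℝ) / μ - 1)]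
    · refine ⟨j1, Finset.mem_univ _, ?_⟩
      have h5 : (totalDomNumber (G j1) : ℝ) / μ - 1 ≠ 0 := by
        intro h
        apply hj1
        have h6 : (totalDomNumber (G j1) : ℝ) / μ = 1 := by linarith
        rwa [div_eq_one_iff_eq hμpos.ne'] at h6
      linarith [Real.add_one_lt_exp h5]
  rw [← Real.exp_sum] at hlt
  have hexp : ∑ j, ((totalDomNumber (G j) : ℝ) / μ - 1) ≤ 0 := by
    rw [Finset.sum_sub_distrib, ← Finset.sum_div]
    simp only [Finset.sum_const, Finset.card_univ, Fintype.card_fin, nsmul_eq_mul, mul_one]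
    have : (∑ j, (totalDomNumber (G j) : ℝ)) / μ ≤ k := by
      rw [div_le_iff₀ hμpos]; exact hsum
    linarith
  have h7 : ∏ j, ((totalDomNumber (G j) : ℝ) / μ) < 1 :=
    lt_of_lt_of_le hlt (by have h8 := Real.exp_le_exp.2 hexp; rwa [Real.exp_zero] at h8)
  rw [Finset.prod_div_distrib] at h7
  simp only [Finset.prod_const, Finset.card_univ, Fintype.card_fin] at h7
  rwa [div_lt_one (by positivity)] at h7

/-- The bound `((1-1/k)(n+1))^k` is never attained. -/
theorem P_lt_bound (n k : ℕ) (hn : 7 ≤ n) (hk : 3 ≤ k) (hkn : k ≤ n - 2) :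
    (P n k : ℝ) < ((1 - 1 / (k : ℝ)) * ((n : ℝ) + 1)) ^ k := by
  have hk3 : (3 : ℝ) ≤ k := by exact_mod_cast hk
  have hn7 : (7 : ℝ) ≤ n := by exact_mod_cast hn
  rcases P_eq n k with h | ⟨G, hG, h⟩
  · rw [h]
    have hkinv : 1 / (k : ℝ) ≤ 1 / 3 := one_div_le_one_div_of_le (by norm_num) hk3
    have hμpos : 0 < (1 - 1 / (k : ℝ)) * ((n : ℝ) + 1) := by apply mul_pos <;> linarith
    simp only [Nat.cast_zero]
    positivity
  · rw [h]
    push_cast
    exact prod_lt_bound hn hk (by omega) G hG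

end Pool.Agent.H312TD
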