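import Pool.Agent.H312TD.Dom

namespace Pool.Agent.H312TD

open Finset Classical

variable {n k : ℕ}

/-- open neighbourhood of a set. -/
noncomputable def nbhd (G : SimpleGraph (Fin n)) (T : Finset (Fin n)) : Finset (Fin n) :=
  Finset.univ.filter (fun v => ∃ u ∈ T, G.Adj v u)

lemma nbhd_add_le (G : SimpleGraph (Fin n)) (hG : ∀ v, ∃ u, G.Adj v u) (T : Finset (Fin n)) :
    (nbhd G T).card + totalDomNumber G ≤ n + T.card := by
  choose nb hnb using hG
  have hdom : ∀ v, ∃ u ∈ T ∪ (nbhd G T)ᶜ.image nb, G.Adj v u := by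
    intro v
    by_cases hv : v ∈ nbhd G T
    · obtain ⟨u, hu, h⟩ := (Finset.mem_filter.1 hv).2
      exact ⟨u, Finset.mem_union_left _ hu, h⟩
    · refine ⟨nb v, Finset.mem_union_right _ (Finset.mem_image_of_mem _ (Finset.mem_compl.2 hv)), hnb v⟩
  have h1 := totalDomNumber_le G _ hdom
  have h2 := Finset.card_union_le T ((nbhd G T)ᶜ.image nb)
  have h3 : ((nbhd G T)ᶜ.image nb).card ≤ (nbhd G T)ᶜ.card := Finset.card_image_le
  have h4 : (nbhd G T).card + (nbhd G T)ᶜ.card = n := by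
    have := Finset.card_add_card_compl (nbhd G T)
    simpa using this
  omega

lemma sum_deg (G : Fin k → SimpleGraph (Fin n)) (hG : IsFactorization G) (u : Fin n) :
    ∑ j, deg (G j) u + 1 = n := by
  have h1 : ∑ j, deg (G j) u = ∑ v : Fin n, (if v = u then 0 else 1) := by
    unfold deg
    simp_rw [Finset.card_filter]
    rw [Finset.sum_comm]
    apply Finset.sum_congr rfl
    intro v _
    by_cases hv : v = u
    · subst hv; simp
    · rw [if_neg hv]
      obtain ⟨i, hi⟩ := hG.cover u v (Ne.symm hv)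
      rw [Finset.sum_eq_single i]
      · simp [hi]
      · intro j _ hji
        rw [if_neg]
        intro hj
        exact hG.disj j i hji u v hj hi
      · simp
  have h2 : ∑ v : Fin n, (if v = u then 0 else 1) + ∑ v : Fin n, (if v = u then 1 else 0) = n := by
    rw [← Finset.sum_add_distrib]
    have : ∀ v : Fin n, (if v = u then 0 else 1) + (if v = u then 1 else 0) = 1 := by
      intro v; split_ifs <;> rfl
    rw [Finset.sum_congr rfl (fun v _ => this v)]
    simp
  rw [h1]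
  simpa using h2

lemma one_le_deg (G : SimpleGraph (Fin n)) (hG : ∀ v, ∃ u, G.Adj v u) (v : Fin n) : 1 ≤ deg G v := by
  obtain ⟨u, hu⟩ := hG v
  exact Finset.card_pos.2 ⟨u, Finset.mem_filter.2 ⟨Finset.mem_univ _, hu⟩⟩

/-- `|N(w) \ N(v)|`. -/
noncomputable def ydiff (G : SimpleGraph (Fin n)) (v w : Fin n) : ℕ :=
  (Finset.univ.filter (fun u => G.Adj w u ∧ ¬ G.Adj v u)).card

lemma deg_add_ydiff (G : SimpleGraph (Fin n)) (hG : ∀ v, ∃ u, G.Adj v u) (v w : Fin n) :
    deg G v + ydiff G v w + totalDomNumber G ≤ n + 2 := by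
  have h := nbhd_add_le G hG {v, w}
  have h2 : ({v, w} : Finset (Fin n)).card ≤ 2 := Finset.card_le_two
  have h3 : deg G v + ydiff G v w ≤ (nbhd G {v, w}).card := by
    unfold deg ydiff
    rw [← Finset.card_union_of_disjoint]
    · apply Finset.card_le_card
      intro u hu
      rw [Finset.mem_union, Finset.mem_filter, Finset.mem_filter] at hu
      unfold nbhd
      rw [Finset.mem_filter]
      refine ⟨Finset.mem_univ _, ?_⟩
      rcases hu with hu | hu
      · exact ⟨v, by simp, hu.2.symm⟩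
      · exact ⟨w, by simp, hu.2.1.symm⟩
    · rw [Finset.disjoint_filter]
      intro u _ h1 h2
      exact h2.2 h1
  omega

lemma deg_le (G : SimpleGraph (Fin n)) (hG : ∀ v, ∃ u, G.Adj v u) (v : Fin n) :
    deg G v + totalDomNumber G ≤ n + 1 := by
  have h := nbhd_add_le G hG {v}
  have h3 : deg G v ≤ (nbhd G {v}).card := by
    unfold deg nbhd
    apply Finset.card_le_card
    intro u hu
    rw [Finset.mem_filter] at hu ⊢
    exact ⟨Finset.mem_univ _, v, by simp, hu.2.symm⟩
  simp only [Finset.card_singleton] at h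
  omega

/-- `∑_{v,w} |N(w) \ N(v)| = ∑_u deg u (n - deg u)`. -/
lemma sum_ydiff (G : SimpleGraph (Fin n)) :
    ∑ v : Fin n, ∑ w : Fin n, (ydiff G v w : ℤ) = ∑ u : Fin n, (deg G u : ℤ) * (n - deg G u) := by
  have h1 : ∀ v w : Fin n, (ydiff G v w : ℤ) = ∑ u : Fin n, (if G.Adj u w then (1:ℤ) else 0) *
      (1 - (if G.Adj u v then (1:ℤ) else 0)) := by
    intro v w
    unfold ydiff
    rw [Finset.card_filter]
    push_cast
    apply Finset.sum_congr rfl
    intro u _
    rw [G.adj_comm w u, G.adj_comm v u]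
    by_cases h1 : G.Adj u w <;> by_cases h2 : G.Adj u v <;> simp [h1, h2]
  simp_rw [h1]
  have h2 : ∀ u : Fin n, (deg G u : ℤ) = ∑ w : Fin n, (if G.Adj u w then (1:ℤ) else 0) := by
    intro u; unfold deg; rw [Finset.card_filter]; push_cast; rfl
  have h3 : ∀ u : Fin n, (n : ℤ) - deg G u = ∑ v : Fin n, (1 - (if G.Adj u v then (1:ℤ) else 0)) := by
    intro u; rw [h2, Finset.sum_sub_distrib]; simp
  have h4 : ∀ u : Fin n, (deg G u : ℤ) * (n - deg G u) = ∑ v : Fin n, ∑ w : Fin n,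
      (if G.Adj u w then (1:ℤ) else 0) * (1 - (if G.Adj u v then (1:ℤ) else 0)) := by
    intro u
    rw [h3, h2, Finset.sum_mul_sum, Finset.sum_comm]
  simp_rw [h4]
  calc ∑ v : Fin n, ∑ w : Fin n, ∑ u : Fin n, (if G.Adj u w then (1:ℤ) else 0) *
      (1 - (if G.Adj u v then (1:ℤ) else 0))
      = ∑ v : Fin n, ∑ u : Fin n, ∑ w : Fin n, (if G.Adj u w then (1:ℤ) else 0) *
      (1 - (if G.Adj u v then (1:ℤ) else 0)) := Finset.sum_congr rfl (fun v _ => Finset.sum_comm)
    _ = _ := Finset.sum_comm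

lemma ydiff_self (G : SimpleGraph (Fin n)) (v : Fin n) : ydiff G v v = 0 := by
  unfold ydiff
  rw [Finset.card_eq_zero, Finset.filter_eq_empty_iff]
  intro u _ h
  exact h.2 h.1

/-- the main double counting inequality:
`n (n-1)² + ∑_j ∑_u d (n - d) ≤ n (n-1) ∑_j (n + 2 - γ_t(G_j))`. -/
lemma main_count (G : Fin k → SimpleGraph (Fin n)) (hG : IsFactorization G) :
    (n : ℤ) * (n - 1) * (n - 1) + ∑ j, ∑ u : Fin n, (deg (G j) u : ℤ) * (n - deg (G j) u)
      ≤ (n : ℤ) * (n - 1) * ∑ j, ((n : ℤ) + 2 - totalDomNumber (G j)) := by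
  have h1 : ∀ j, ∀ v w : Fin n, v ≠ w → (deg (G j) v : ℤ) + ydiff (G j) v w ≤ (n : ℤ) + 2 - totalDomNumber (G j) := by
    intro j v w _
    have := deg_add_ydiff (G j) (hG.minDeg j) v w
    have h2 : (deg (G j) v : ℤ) + ydiff (G j) v w + totalDomNumber (G j) ≤ n + 2 := by exact_mod_cast this
    linarith
  have hs : ∀ v : Fin n, ∑ j, (deg (G j) v : ℤ) = n - 1 := by
    intro v
    have := sum_deg G hG v
    have h2 : ∑ j, (deg (G j) v : ℤ) + 1 = n := by exact_mod_cast this
    linarith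
  -- sum over ordered pairs of distinct vertices
  have h2 : ∑ j, ∑ v : Fin n, ∑ w ∈ Finset.univ.erase v, ((deg (G j) v : ℤ) + ydiff (G j) v w)
      ≤ ∑ j, ∑ v : Fin n, ∑ w ∈ Finset.univ.erase v, ((n : ℤ) + 2 - totalDomNumber (G j)) := by
    apply Finset.sum_le_sum
    intro j _
    apply Finset.sum_le_sum
    intro v _
    apply Finset.sum_le_sum
    intro w hw
    exact h1 j v w (Finset.ne_of_mem_erase hw).symm
  have hcard : ∀ v : Fin n, ((Finset.univ.erase v : Finset (Fin n)).card : ℤ) = n - 1 := by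
    intro v
    rw [Finset.card_erase_of_mem (Finset.mem_univ v)]
    simp only [Finset.card_univ, Fintype.card_fin]
    have := Fin.pos v
    omega
  have h3 : ∀ j, ∀ v : Fin n, ∑ w ∈ Finset.univ.erase v, ((deg (G j) v : ℤ) + ydiff (G j) v w)
      = (n - 1) * deg (G j) v + ∑ w : Fin n, (ydiff (G j) v w : ℤ) := by
    intro j v
    rw [Finset.sum_add_distrib, Finset.sum_const, nsmul_eq_mul, hcard]
    congr 1
    rw [← Finset.add_sum_erase Finset.univ _ (Finset.mem_univ v), ydiff_self]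
    simp
  have h4 : ∀ j, ∀ v : Fin n, ∑ w ∈ Finset.univ.erase v, ((n : ℤ) + 2 - totalDomNumber (G j))
      = (n - 1) * ((n : ℤ) + 2 - totalDomNumber (G j)) := by
    intro j v
    rw [Finset.sum_const, nsmul_eq_mul, hcard]
  simp_rw [h3, h4] at h2
  have h5 : ∑ j, ∑ v : Fin n, ((n - 1) * (deg (G j) v : ℤ) + ∑ w : Fin n, (ydiff (G j) v w : ℤ))
      = (n : ℤ) * (n - 1) * (n - 1) + ∑ j, ∑ u : Fin n, (deg (G j) u : ℤ) * (n - deg (G j) u) := by
    simp_rw [Finset.sum_add_distrib, sum_ydiff]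
    congr 1
    rw [Finset.sum_comm]
    simp_rw [← Finset.mul_sum, hs]
    simp
    ring
  have h6 : ∑ j : Fin k, ∑ _v : Fin n, (((n:ℤ) - 1) * ((n : ℤ) + 2 - totalDomNumber (G j)))
      = (n : ℤ) * (n - 1) * ∑ j, ((n : ℤ) + 2 - totalDomNumber (G j)) := by
    simp_rw [Finset.sum_const, Finset.card_univ, Fintype.card_fin, nsmul_eq_mul]
    rw [Finset.mul_sum]
    apply Finset.sum_congr rfl
    intro j _
    ring
  rw [h5, h6] at h2
  exact h2

end Pool.Agent.H312TD
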