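import Pool.Agent.H312TD.Pack

namespace Pool.Agent.H312TD

open Finset Classical

variable {n k : ℕ}

lemma sum_deg_int (G : Fin k → SimpleGraph (Fin n)) (hG : IsFactorization G) (u : Fin n) :
    ∑ j, (deg (G j) u : ℤ) = n - 1 := by
  have := sum_deg G hG u
  have h2 : ∑ j, (deg (G j) u : ℤ) + 1 = n := by exact_mod_cast this
  linarith

lemma Q_ge (G : Fin k → SimpleGraph (Fin n)) (hG : IsFactorization G) :
    (n : ℤ) * (n - 1) * (2 * n - 1 - ∑ j, ((n : ℤ) + 1 - totalDomNumber (G j)) - k)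
      ≤ ∑ u : Fin n, ∑ j, (deg (G j) u : ℤ) ^ 2 := by
  have h := main_count G hG
  have h1 : ∑ j, ∑ u : Fin n, (deg (G j) u : ℤ) * (n - deg (G j) u)
      = (n : ℤ) * n * (n - 1) - ∑ u : Fin n, ∑ j, (deg (G j) u : ℤ) ^ 2 := by
    rw [Finset.sum_comm]
    have h2 : ∀ u : Fin n, ∑ j, (deg (G j) u : ℤ) * (n - deg (G j) u)
        = (n : ℤ) * (n - 1) - ∑ j, (deg (G j) u : ℤ) ^ 2 := by
      intro u
      rw [← sum_deg_int G hG u, Finset.mul_sum, ← Finset.sum_sub_distrib]
      apply Finset.sum_congr rfl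
      intro j _
      ring
    simp_rw [h2, Finset.sum_sub_distrib]
    simp
    ring
  have h3 : ∑ j, ((n : ℤ) + 2 - totalDomNumber (G j))
      = ∑ j, ((n : ℤ) + 1 - totalDomNumber (G j)) + k := by
    have : ∀ j, (n : ℤ) + 2 - totalDomNumber (G j) = ((n : ℤ) + 1 - totalDomNumber (G j)) + 1 := by
      intro j; ring
    simp_rw [this, Finset.sum_add_distrib]
    simp
  rw [h1, h3] at h
  linarith

lemma sq_sum_le {ι : Type*} (s : Finset ι) (b : ι → ℤ) (h0 : ∀ i ∈ s, 0 ≤ b i) :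
    ∑ i ∈ s, b i ^ 2 ≤ (∑ i ∈ s, b i) ^ 2 := by
  rw [pow_two (∑ i ∈ s, b i), Finset.sum_mul]
  apply Finset.sum_le_sum
  intro i hi
  rw [pow_two]
  exact mul_le_mul_of_nonneg_left (Finset.single_le_sum h0 hi) (h0 i hi)

/-- per-vertex identity: `∑ d² = ∑ (d-1)² + 2(n-1) - k`. -/
lemma sum_sq_eq (G : Fin k → SimpleGraph (Fin n)) (hG : IsFactorization G) (u : Fin n) :
    ∑ j, (deg (G j) u : ℤ) ^ 2 = ∑ j, ((deg (G j) u : ℤ) - 1) ^ 2 + 2 * (n - 1) - k := by
  have h1 : ∀ j, (deg (G j) u : ℤ) ^ 2 = ((deg (G j) u : ℤ) - 1) ^ 2 + 2 * (deg (G j) u : ℤ) - 1 := by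
    intro j; ring
  rw [Finset.sum_congr rfl (fun j _ => h1 j), Finset.sum_sub_distrib, Finset.sum_add_distrib,
    ← Finset.mul_sum, sum_deg_int G hG u]
  simp

lemma sum_b_eq (G : Fin k → SimpleGraph (Fin n)) (hG : IsFactorization G) (u : Fin n) :
    ∑ j, ((deg (G j) u : ℤ) - 1) = n - 1 - k := by
  rw [Finset.sum_sub_distrib, sum_deg_int G hG u]
  simp

lemma b_nonneg (G : Fin k → SimpleGraph (Fin n)) (hG : IsFactorization G) (u : Fin n) (j : Fin k) :
    0 ≤ (deg (G j) u : ℤ) - 1 := by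
  have := one_le_deg (G j) (hG.minDeg j) u
  have h2 : (1 : ℤ) ≤ deg (G j) u := by exact_mod_cast this
  linarith

lemma sum_sq_le (G : Fin k → SimpleGraph (Fin n)) (hG : IsFactorization G) (u : Fin n) :
    ∑ j, (deg (G j) u : ℤ) ^ 2 ≤ ((n : ℤ) - 1 - k) ^ 2 + 2 * (n - 1) - k := by
  rw [sum_sq_eq G hG u, ← sum_b_eq G hG u]
  have := sq_sum_le Finset.univ (fun j => (deg (G j) u : ℤ) - 1) (fun j _ => b_nonneg G hG u j)
  linarith

lemma even_sum_deg (G : SimpleGraph (Fin n)) : Even (∑ u, deg G u) := by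
  have h : ∀ u, deg G u = G.degree u := by
    intro u
    unfold deg
    rw [← SimpleGraph.card_neighborFinset_eq_degree]
    congr 1
    ext v
    simp
  rw [Finset.sum_congr rfl (fun u _ => h u), SimpleGraph.sum_degrees_eq_twice_card_edges]
  exact ⟨_, two_mul _⟩

lemma deg_le_a (G : Fin k → SimpleGraph (Fin n)) (hG : IsFactorization G) (j : Fin k) (u : Fin n) :
    (deg (G j) u : ℤ) ≤ (n : ℤ) + 1 - totalDomNumber (G j) := by
  have := deg_le (G j) (hG.minDeg j) u
  have h2 : (deg (G j) u : ℤ) + totalDomNumber (G j) ≤ n + 1 := by exact_mod_cast this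
  linarith

/-- degree-two lemma summed over all factors. -/
lemma deg_two_sum (G : Fin k → SimpleGraph (Fin n)) (hG : IsFactorization G)
    (h2 : ∀ j u, deg (G j) u ≤ 2) :
    (n : ℤ) * (n - 1) + 3 * (k * (n + 1) - ∑ j, ((n : ℤ) + 1 - totalDomNumber (G j))) ≤ 4 * n * k := by
  have h1 : ∀ j, (∑ u, (deg (G j) u : ℤ)) + 3 * totalDomNumber (G j) ≤ 4 * n := by
    intro j
    exact_mod_cast deg_two_bound (G j) (hG.minDeg j) (h2 j)
  have h3 : ∑ j, ((∑ u, (deg (G j) u : ℤ)) + 3 * totalDomNumber (G j)) ≤ ∑ _j : Fin k, (4 * n : ℤ) :=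
    Finset.sum_le_sum (fun j _ => h1 j)
  rw [Finset.sum_add_distrib, Finset.sum_comm] at h3
  simp_rw [sum_deg_int G hG] at h3
  have h4 : ∑ j, ((n : ℤ) + 1 - totalDomNumber (G j)) = k * (n + 1) - ∑ j, (totalDomNumber (G j) : ℤ) := by
    rw [Finset.sum_sub_distrib]; simp
  rw [h4]
  rw [← Finset.mul_sum] at h3
  simp only [Finset.sum_const, Finset.card_univ, Fintype.card_fin, nsmul_eq_mul] at h3
  linarith

/-- The sum bound `∑ γ_t(G_j) ≤ (k-1)(n+1)` in the form `∑ (n+1-γ_t(G_j)) ≥ n+1`. -/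
theorem sum_a_ge (hn : 7 ≤ n) (hk : 3 ≤ k) (hkn : k + 2 ≤ n) (G : Fin k → SimpleGraph (Fin n))
    (hG : IsFactorization G) :
    (n : ℤ) + 1 ≤ ∑ j, ((n : ℤ) + 1 - totalDomNumber (G j)) := by
  by_contra hcon
  push Not at hcon
  set A := ∑ j, ((n : ℤ) + 1 - totalDomNumber (G j)) with hA
  have hAn : A ≤ n := by linarith
  obtain ⟨s, hs⟩ : ∃ s : ℕ, n = s + k + 1 := ⟨n - k - 1, by omega⟩
  have hs1 : 1 ≤ s := by omega
  have hnZ : (n : ℤ) = s + k + 1 := by exact_mod_cast hs
  have hQ := Q_ge G hG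
  rw [← hA] at hQ
  have hn7 : (7 : ℤ) ≤ n := by exact_mod_cast hn
  have hk3 : (3 : ℤ) ≤ k := by exact_mod_cast hk
  have hs1' : (1 : ℤ) ≤ s := by exact_mod_cast hs1
  have hQlow : (n : ℤ) * ((s + k) * s) ≤ ∑ u : Fin n, ∑ j, (deg (G j) u : ℤ) ^ 2 := by
    refine le_trans ?_ hQ
    have e1 : (s : ℤ) ≤ 2 * n - 1 - A - k := by linarith
    have e2 : (n : ℤ) * (n - 1) * s ≤ (n : ℤ) * (n - 1) * (2 * n - 1 - A - k) := by
      apply mul_le_mul_of_nonneg_left e1
      apply mul_nonneg <;> linarith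
    refine le_trans (le_of_eq ?_) e2
    rw [hnZ]; ring
  have hper : ∀ u, ∑ j, (deg (G j) u : ℤ) ^ 2 ≤ s ^ 2 + 2 * s + k := by
    intro u
    refine le_trans (sum_sq_le G hG u) (le_of_eq ?_)
    rw [hnZ]; ring
  have hQup : ∑ u : Fin n, ∑ j, (deg (G j) u : ℤ) ^ 2 ≤ n * (s ^ 2 + 2 * s + k) := by
    refine le_trans (Finset.sum_le_sum (fun u _ => hper u)) (le_of_eq ?_)
    simp
  have hineq : (s : ℤ) * (k - 2) ≤ k := by
    have h1 : (n : ℤ) * ((s + k) * s) ≤ n * (s ^ 2 + 2 * s + k) := le_trans hQlow hQup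
    have h2 : ((s : ℤ) + k) * s ≤ s ^ 2 + 2 * s + k := le_of_mul_le_mul_left h1 (by linarith)
    linarith
  rcases Nat.lt_or_ge s 2 with hs2 | hs2
  · -- s = 1
    have hs_eq : s = 1 := by omega
    have hdeg2 : ∀ j u, deg (G j) u ≤ 2 := by
      intro j u
      have h1 := Finset.single_le_sum (f := fun j => (deg (G j) u : ℤ) - 1)
        (fun j _ => b_nonneg G hG u j) (Finset.mem_univ j)
      rw [sum_b_eq G hG u] at h1
      have h2 : (deg (G j) u : ℤ) - 1 ≤ n - 1 - k := h1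
      have h3 : (s : ℤ) = 1 := by exact_mod_cast hs_eq
      have : (deg (G j) u : ℤ) ≤ 2 := by linarith
      exact_mod_cast this
    have h4 := deg_two_sum G hG hdeg2
    rw [← hA] at h4
    have h3 : (s : ℤ) = 1 := by exact_mod_cast hs_eq
    have hk5 : (n : ℤ) = k + 2 := by linarith
    nlinarith
  · -- s ≥ 2
    have hsZ : (2 : ℤ) ≤ s := by exact_mod_cast hs2
    have hcase : (s : ℤ) * (k - 2) = k ∧ n = 7 := by
      have hk4 : (k : ℤ) ≤ 4 := by nlinarith
      have hs3 : (s : ℤ) ≤ 3 := by nlinarith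
      have hk4' : k ≤ 4 := by exact_mod_cast hk4
      have hs3' : s ≤ 3 := by exact_mod_cast hs3
      have : (s = 2 ∧ k = 4) ∨ (s = 3 ∧ k = 3) ∨ (s = 3 ∧ k = 4) := by omega
      rcases this with ⟨rfl, rfl⟩ | ⟨rfl, rfl⟩ | ⟨rfl, rfl⟩
      · constructor
        · norm_num
        · omega
      · constructor
        · norm_num
        · omega
      · norm_num at hineq
    obtain ⟨heq, hn7e⟩ := hcase
    -- per-vertex equality
    have hpereq : ∀ u, ∑ j, (deg (G j) u : ℤ) ^ 2 = s ^ 2 + 2 * s + k := by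
      by_contra hne
      push Not at hne
      obtain ⟨u0, hu0⟩ := hne
      have hlt : ∑ u : Fin n, ∑ j, (deg (G j) u : ℤ) ^ 2 < ∑ _u : Fin n, ((s:ℤ) ^ 2 + 2 * s + k) :=
        Finset.sum_lt_sum (fun u _ => hper u) ⟨u0, Finset.mem_univ _, lt_of_le_of_ne (hper u0) hu0⟩
      simp only [Finset.sum_const, Finset.card_univ, Fintype.card_fin, nsmul_eq_mul] at hlt
      have h5 : (n : ℤ) * ((s + k) * s) = n * (s ^ 2 + 2 * s + k) := by
        have : ((s : ℤ) + k) * s = s ^ 2 + 2 * s + k := by linarith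
        rw [this]
      linarith
    have hbig : ∀ u, ∃ j, (deg (G j) u : ℤ) = s + 1 ∧ ∀ j', j' ≠ j → (deg (G j') u : ℤ) = 1 := by
      intro u
      have hb2 : ∑ j, ((deg (G j) u : ℤ) - 1) ^ 2 = (s : ℤ) ^ 2 := by
        have := sum_sq_eq G hG u
        rw [hpereq u] at this
        linarith
      have hb1 : ∑ j, ((deg (G j) u : ℤ) - 1) = s := by
        rw [sum_b_eq G hG u]; linarith
      have hex : ∃ j, (s : ℤ) ≤ (deg (G j) u : ℤ) - 1 := by
        by_contra hno
        push Not at hno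
        have h6 : ∑ j, ((deg (G j) u : ℤ) - 1) ^ 2 ≤ ∑ j, ((s : ℤ) - 1) * ((deg (G j) u : ℤ) - 1) := by
          apply Finset.sum_le_sum
          intro j _
          have h7 := b_nonneg G hG u j
          have h8 := hno j
          nlinarith
        rw [← Finset.mul_sum, hb1, hb2] at h6
        nlinarith
      obtain ⟨j, hj⟩ := hex
      have hsplit := Finset.add_sum_erase Finset.univ (fun j => (deg (G j) u : ℤ) - 1) (Finset.mem_univ j)
      have hnn : 0 ≤ ∑ j' ∈ Finset.univ.erase j, ((deg (G j') u : ℤ) - 1) :=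
        Finset.sum_nonneg (fun j' _ => b_nonneg G hG u j')
      rw [hb1] at hsplit
      have hzero : ∑ j' ∈ Finset.univ.erase j, ((deg (G j') u : ℤ) - 1) = 0 := by linarith
      refine ⟨j, by linarith, ?_⟩
      intro j' hj'
      have h9 := (Finset.sum_eq_zero_iff_of_nonneg (fun j' _ => b_nonneg G hG u j')).1 hzero j'
        (Finset.mem_erase.2 ⟨hj', Finset.mem_univ _⟩)
      linarith
    -- the big colour is the same for all vertices
    have hpos : 0 < n := by omega
    obtain ⟨j0, hj0, _⟩ := hbig ⟨0, hpos⟩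
    have hall : ∀ u, (deg (G j0) u : ℤ) = s + 1 ∧ ∀ j', j' ≠ j0 → (deg (G j') u : ℤ) = 1 := by
      intro u
      obtain ⟨j1, hj1, hj1'⟩ := hbig u
      by_cases hj : j1 = j0
      · rw [← hj]; exact ⟨hj1, hj1'⟩
      · exfalso
        have ha : ∀ j, (1 : ℤ) ≤ (n : ℤ) + 1 - totalDomNumber (G j) := by
          intro j
          have h1 := deg_le_a G hG j u
          have h2 := b_nonneg G hG u j
          linarith
        have ha0 : (s : ℤ) + 1 ≤ (n : ℤ) + 1 - totalDomNumber (G j0) := by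
          rw [← hj0]; exact deg_le_a G hG j0 _
        have ha1 : (s : ℤ) + 1 ≤ (n : ℤ) + 1 - totalDomNumber (G j1) := by
          rw [← hj1]; exact deg_le_a G hG j1 _
        have hsub : ∑ j, (((n : ℤ) + 1 - totalDomNumber (G j)) - 1) = A - k := by
          rw [Finset.sum_sub_distrib, ← hA]; simp
        have hpair : ∑ j ∈ ({j0, j1} : Finset (Fin k)), (((n : ℤ) + 1 - totalDomNumber (G j)) - 1) ≤
            ∑ j, (((n : ℤ) + 1 - totalDomNumber (G j)) - 1) := by
          apply Finset.sum_le_sum_of_subset_of_nonneg (Finset.subset_univ _)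
          intro j _ _
          linarith [ha j]
        rw [Finset.sum_pair (Ne.symm hj), hsub] at hpair
        linarith
    -- another colour is a perfect matching, contradiction with parity
    obtain ⟨j1, hj1⟩ : ∃ j1 : Fin k, j1 ≠ j0 := by
      have : 1 < k := by omega
      by_contra hno
      push Not at hno
      have h1 : (⟨0, by omega⟩ : Fin k) = ⟨1, by omega⟩ := (hno _).trans (hno _).symm
      have := congrArg Fin.val h1
      simp at this
    have heven := even_sum_deg (G j1)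
    have hone : ∀ u, deg (G j1) u = 1 := by
      intro u
      have := (hall u).2 j1 hj1
      exact_mod_cast this
    rw [Finset.sum_congr rfl (fun u _ => hone u)] at heven
    simp only [Finset.sum_const, Finset.card_univ, Fintype.card_fin, smul_eq_mul, mul_one] at heven
    rw [hn7e] at heven
    exact absurd heven (by decide)

/-- Equality in the sum bound is impossible if all `γ_t(G_j)` are equal. -/
theorem not_balanced (hn : 7 ≤ n) (hk : 3 ≤ k) (hkn : k + 2 ≤ n) (G : Fin k → SimpleGraph (Fin n))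
    (hG : IsFactorization G) (a : ℤ) (ha : ∀ j, (n : ℤ) + 1 - totalDomNumber (G j) = a)
    (hka : (k : ℤ) * a = n + 1) : False := by
  have hn7 : (7 : ℤ) ≤ n := by exact_mod_cast hn
  have hk3 : (3 : ℤ) ≤ k := by exact_mod_cast hk
  have hkn' : (k : ℤ) + 2 ≤ n := by exact_mod_cast hkn
  have hA : ∑ j, ((n : ℤ) + 1 - totalDomNumber (G j)) = n + 1 := by
    rw [Finset.sum_congr rfl (fun j _ => ha j)]
    simp [hka]
  have hQ := Q_ge G hG
  rw [hA] at hQ
  have hper : ∀ u, ∑ j, (deg (G j) u : ℤ) ^ 2 ≤ a * (n - 1) - 2 := by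
    intro u
    have h1 : ∑ j, (deg (G j) u : ℤ) ^ 2 ≤ ∑ j, ((a + 1) * (deg (G j) u : ℤ) - a) := by
      apply Finset.sum_le_sum
      intro j _
      have h2 := deg_le_a G hG j u
      rw [ha j] at h2
      have h3 := b_nonneg G hG u j
      nlinarith
    rw [Finset.sum_sub_distrib, ← Finset.mul_sum, sum_deg_int G hG u] at h1
    simp only [Finset.sum_const, Finset.card_univ, Fintype.card_fin, nsmul_eq_mul] at h1
    rw [hka] at h1
    linarith
  have hQup : ∑ u : Fin n, ∑ j, (deg (G j) u : ℤ) ^ 2 ≤ n * (a * (n - 1) - 2) := by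
    refine le_trans (Finset.sum_le_sum (fun u _ => hper u)) (le_of_eq ?_)
    rw [Finset.sum_const, Finset.card_univ, Fintype.card_fin, nsmul_eq_mul]
  have h1 : (n : ℤ) * ((n - 1) * (n - 2 - k)) ≤ n * (a * (n - 1) - 2) := by
    refine le_trans (le_of_eq ?_) (le_trans hQ hQup)
    ring
  have h2 : ((n : ℤ) - 1) * (n - 2 - k) ≤ a * (n - 1) - 2 := le_of_mul_le_mul_left h1 (by linarith)
  have h3 : (n : ℤ) - 2 - k < a := by
    by_contra hcon
    push Not at hcon
    have : a * (n - 1) ≤ ((n : ℤ) - 2 - k) * (n - 1) := mul_le_mul_of_nonneg_right hcon (by linarith)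
    linarith
  have h4 : a * (k - 1) < k + 3 := by linarith
  have ha2 : 2 ≤ a := by
    by_contra hcon
    push Not at hcon
    have : a ≤ 1 := by linarith
    nlinarith
  have ha3 : a ≤ 2 := by
    by_contra hcon
    push Not at hcon
    have : 3 ≤ a := by linarith
    nlinarith
  have ha_eq : a = 2 := le_antisymm ha3 ha2
  subst ha_eq
  have hdeg2 : ∀ j u, deg (G j) u ≤ 2 := by
    intro j u
    have h5 := deg_le_a G hG j u
    rw [ha j] at h5
    exact_mod_cast h5
  have h5 := deg_two_sum G hG hdeg2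
  rw [hA] at h5
  have hk4 : (k : ℤ) = 4 := by linarith
  have hn7' : (n : ℤ) = 7 := by linarith
  rw [hk4, hn7'] at h5
  norm_num at h5

end Pool.Agent.H312TD
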