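import Pool.Agent.H312TD.SumBound
import Pool.Agent.H312TD.Asymp

namespace Pool.Agent.H312TD

open Finset Classical

variable {n k : ℕ}

/-- per-factor inequality: `(n - 2 + γ) ∑ deg ≤ n (n-1) (n + 2 - γ)`. -/
lemma colour_ineq (G : SimpleGraph (Fin n)) (hG : ∀ v, ∃ u, G.Adj v u) :
    ((n : ℤ) - 2 + totalDomNumber G) * ∑ u, (deg G u : ℤ) ≤
      n * (n - 1) * ((n : ℤ) + 2 - totalDomNumber G) := by
  have h1 : ∀ v w : Fin n, (deg G v : ℤ) + ydiff G v w ≤ (n : ℤ) + 2 - totalDomNumber G := by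
    intro v w
    have := deg_add_ydiff G hG v w
    have h2 : (deg G v : ℤ) + ydiff G v w + totalDomNumber G ≤ n + 2 := by exact_mod_cast this
    linarith
  have hcard : ∀ v : Fin n, ((Finset.univ.erase v : Finset (Fin n)).card : ℤ) = n - 1 := by
    intro v
    rw [Finset.card_erase_of_mem (Finset.mem_univ v)]
    simp only [Finset.card_univ, Fintype.card_fin]
    have := Fin.pos v
    omega
  have h2 : ∑ v : Fin n, ∑ w ∈ Finset.univ.erase v, ((deg G v : ℤ) + ydiff G v w)
      ≤ ∑ v : Fin n, ∑ w ∈ Finset.univ.erase v, ((n : ℤ) + 2 - totalDomNumber G) := by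
    apply Finset.sum_le_sum
    intro v _
    apply Finset.sum_le_sum
    intro w _
    exact h1 v w
  have h3 : ∀ v : Fin n, ∑ w ∈ Finset.univ.erase v, ((deg G v : ℤ) + ydiff G v w)
      = (n - 1) * deg G v + ∑ w : Fin n, (ydiff G v w : ℤ) := by
    intro v
    rw [Finset.sum_add_distrib, Finset.sum_const, nsmul_eq_mul, hcard]
    congr 1
    rw [← Finset.add_sum_erase Finset.univ _ (Finset.mem_univ v), ydiff_self]
    simp
  have h4 : ∀ v : Fin n, ∑ w ∈ Finset.univ.erase v, ((n : ℤ) + 2 - totalDomNumber G)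
      = (n - 1) * ((n : ℤ) + 2 - totalDomNumber G) := by
    intro v
    rw [Finset.sum_const, nsmul_eq_mul, hcard]
  simp_rw [h3, h4] at h2
  rw [Finset.sum_add_distrib, sum_ydiff, ← Finset.mul_sum] at h2
  have h5 : ∑ u : Fin n, (deg G u : ℤ) * (n - deg G u)
      ≥ ∑ u : Fin n, (deg G u : ℤ) * (totalDomNumber G - 1) := by
    apply Finset.sum_le_sum
    intro u _
    apply mul_le_mul_of_nonneg_left _ (by positivity)
    have := deg_le G hG u
    have h2 : (deg G u : ℤ) + totalDomNumber G ≤ n + 1 := by exact_mod_cast this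
    linarith
  rw [← Finset.sum_mul] at h5
  simp only [Finset.sum_const, Finset.card_univ, Fintype.card_fin, nsmul_eq_mul] at h2
  nlinarith

lemma two_le_totalDomNumber (hn : 0 < n) (G : SimpleGraph (Fin n)) (hG : ∀ v, ∃ u, G.Adj v u) :
    2 ≤ totalDomNumber G := by
  obtain ⟨S, hS1, hS2⟩ := exists_totalDom G hG
  obtain ⟨u, hu, _⟩ := hS2 ⟨0, hn⟩
  obtain ⟨u', hu', hadj⟩ := hS2 u
  rw [← hS1]
  exact Finset.one_lt_card.2 ⟨u, hu, u', hu', hadj.ne⟩

lemma ratio_le_exp (x : ℝ) (h0 : 0 ≤ x) (h1 : x ≤ 1) : (1 - x) / (1 + x) ≤ Real.exp (-(2 * x)) := by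
  rcases eq_or_lt_of_le h1 with h | h
  · rw [h]; simp only [sub_self, zero_div]; exact (Real.exp_pos _).le
  · have hs := Real.hasSum_log_sub_log_of_abs_lt_one (x := x) (by rw [abs_of_nonneg h0]; exact h)
    have h3 := sum_le_hasSum (Finset.range 1) (fun i _ => by positivity) hs
    simp only [Finset.sum_range_succ, Finset.sum_range_zero] at h3
    norm_num at h3
    have h4 : (1 - x) / (1 + x) = Real.exp (Real.log (1 - x) - Real.log (1 + x)) := by
      rw [Real.exp_sub, Real.exp_log (by linarith), Real.exp_log (by linarith)]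
    rw [h4]
    apply Real.exp_le_exp.2
    linarith

theorem prod_le_uniform (hn : 2 ≤ n) (G : Fin k → SimpleGraph (Fin n)) (hG : IsFactorization G) :
    ∏ j, (totalDomNumber (G j) : ℝ) ≤ Real.exp (-2) * ((n : ℝ) + 15) ^ k := by
  have hnR : (2 : ℝ) ≤ n := by exact_mod_cast hn
  have hγ2 : ∀ j, (2 : ℝ) ≤ totalDomNumber (G j) := by
    intro j
    exact_mod_cast two_le_totalDomNumber (by omega) (G j) (hG.minDeg j)
  have hγn : ∀ j, (totalDomNumber (G j) : ℝ) ≤ n := by
    intro j
    exact_mod_cast totalDomNumber_le_n (G j) (hG.minDeg j)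
  set x : Fin k → ℝ := fun j => ((n : ℝ) + 2 - totalDomNumber (G j)) / ((n : ℝ) - 2 + totalDomNumber (G j)) with hx
  have hden : ∀ j, 0 < (n : ℝ) - 2 + totalDomNumber (G j) := by
    intro j; linarith [hγ2 j]
  have hx0 : ∀ j, 0 ≤ x j := by
    intro j
    apply div_nonneg _ (hden j).le
    linarith [hγn j]
  have hx1 : ∀ j, x j ≤ 1 := by
    intro j
    simp only [hx]
    rw [div_le_one (hden j)]
    linarith [hγ2 j]
  have hsum : 1 ≤ ∑ j, x j := by
    have h1 : ∀ j, (∑ u, (deg (G j) u : ℝ)) / (n * (n - 1)) ≤ x j := by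
      intro j
      have h2 := colour_ineq (G j) (hG.minDeg j)
      have h3 : ((n : ℝ) - 2 + totalDomNumber (G j)) * ∑ u, (deg (G j) u : ℝ) ≤
        n * (n - 1) * ((n : ℝ) + 2 - totalDomNumber (G j)) := by exact_mod_cast h2
      simp only [hx]
      rw [div_le_div_iff₀ (by apply mul_pos <;> linarith) (hden j)]
      linarith
    have h4 : ∑ j, (∑ u, (deg (G j) u : ℝ)) / (n * (n - 1)) = 1 := by
      rw [← Finset.sum_div, Finset.sum_comm]
      have h5 : ∀ u : Fin n, ∑ j, (deg (G j) u : ℝ) = n - 1 := by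
        intro u
        have := sum_deg_int G hG u
        exact_mod_cast this
      simp_rw [h5]
      simp only [Finset.sum_const, Finset.card_univ, Fintype.card_fin, nsmul_eq_mul]
      apply div_self
      have : (0:ℝ) < n * (n - 1) := by apply mul_pos <;> linarith
      exact this.ne'
    rw [← h4]
    exact Finset.sum_le_sum (fun j _ => h1 j)
  have hfac : ∀ j, (totalDomNumber (G j) : ℝ) ≤ Real.exp (-(2 * x j)) * (n + 15) := by
    intro j
    have h1 := ratio_le_exp (x j) (hx0 j) (hx1 j)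
    have h2 : (1 - x j) / (1 + x j) = ((totalDomNumber (G j) : ℝ) - 2) / n := by
      have hd := hden j
      have hx0j := hx0 j
      rw [div_eq_div_iff (by linarith [hx0 j] : (0:ℝ) < 1 + x j).ne' (by linarith : (0:ℝ) < (n:ℝ)).ne']
      have e1 : x j * ((n : ℝ) - 2 + totalDomNumber (G j)) = (n : ℝ) + 2 - totalDomNumber (G j) := by
        simp only [hx]; field_simp
      have e2 : (1 - x j) * n * ((n : ℝ) - 2 + totalDomNumber (G j)) =
          ((totalDomNumber (G j) : ℝ) - 2) * (1 + x j) * ((n : ℝ) - 2 + totalDomNumber (G j)) := by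
        have e3 : (1 - x j) * n * ((n : ℝ) - 2 + totalDomNumber (G j)) =
          n * (((n : ℝ) - 2 + totalDomNumber (G j)) - x j * ((n : ℝ) - 2 + totalDomNumber (G j))) := by ring
        have e4 : ((totalDomNumber (G j) : ℝ) - 2) * (1 + x j) * ((n : ℝ) - 2 + totalDomNumber (G j)) =
          ((totalDomNumber (G j) : ℝ) - 2) * (((n : ℝ) - 2 + totalDomNumber (G j)) + x j * ((n : ℝ) - 2 + totalDomNumber (G j))) := by ring
        rw [e3, e4, e1]; ring
      exact mul_right_cancel₀ hd.ne' e2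
    rw [h2, div_le_iff₀ (by linarith)] at h1
    have h3 : 2 ≤ Real.exp (-(2 * x j)) * 15 := by
      have h4 : Real.exp (-2) ≤ Real.exp (-(2 * x j)) := Real.exp_le_exp.2 (by linarith [hx1 j])
      have h5 : (2 : ℝ) ≤ Real.exp (-2) * 15 := by
        have h6 : Real.exp 2 ≤ 7.4 := by
          have h7 : Real.exp 2 = Real.exp 1 ^ 2 := by rw [← Real.exp_nat_mul]; norm_num
          rw [h7]
          have h8 : Real.exp 1 ≤ 2.719 := by linarith [Real.exp_one_lt_d9]
          have h9 : Real.exp 1 ^ 2 ≤ 2.719 ^ 2 := pow_le_pow_left₀ (Real.exp_pos 1).le h8 2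
          refine le_trans h9 ?_
          norm_num
        rw [Real.exp_neg]
        have h10 := Real.exp_pos 2
        rw [inv_mul_eq_div, le_div_iff₀ h10]
        linarith
      linarith
    linarith
  calc ∏ j, (totalDomNumber (G j) : ℝ) ≤ ∏ j, (Real.exp (-(2 * x j)) * ((n : ℝ) + 15)) := by
        apply Finset.prod_le_prod
        · intro j _; positivity
        · intro j _; exact hfac j
    _ = Real.exp (-(2 * ∑ j, x j)) * ((n : ℝ) + 15) ^ k := by
        rw [Finset.prod_mul_distrib, ← Real.exp_sum, Finset.mul_sum, Finset.sum_neg_distrib]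
        simp
    _ ≤ Real.exp (-2) * ((n : ℝ) + 15) ^ k := by
        apply mul_le_mul_of_nonneg_right _ (by positivity)
        apply Real.exp_le_exp.2
        linarith

theorem P_le_uniform (n k : ℕ) (hn : 2 ≤ n) :
    (P n k : ℝ) ≤ Real.exp (-2) * ((n : ℝ) + 15) ^ k := by
  rcases P_eq n k with h | ⟨G, hG, h⟩
  · rw [h]; simp only [Nat.cast_zero]; positivity
  · rw [h]
    push_cast
    exact prod_le_uniform hn G hG

end Pool.Agent.H312TD
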