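import Pool.Agent.H312TD.Family
import Pool.Agent.H312TD.Dom

namespace Pool.Agent.H312TD

open Finset Classical Filter Topology

variable {n k : ℕ}

/-- the set of colours in which `v` has large degree. -/
noncomputable def typ (G : Fin k → SimpleGraph (Fin n)) (δ : ℝ) (v : Fin n) : Finset (Fin k) :=
  Finset.univ.filter (fun i => δ * n ≤ (deg (G i) v : ℝ))

noncomputable def cnt (G : Fin k → SimpleGraph (Fin n)) (δ : ℝ) (S : Finset (Fin k)) : ℕ :=
  (Finset.univ.filter (fun v => typ G δ v = S)).card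

noncomputable def badPairs (G : Fin k → SimpleGraph (Fin n)) (δ : ℝ) (i : Fin k) :
    Finset (Fin n × Fin n) :=
  Finset.univ.filter (fun p => (G i).Adj p.1 p.2 ∧ i ∉ typ G δ p.1)

lemma card_badPairs (G : Fin k → SimpleGraph (Fin n)) (δ : ℝ) (hδ : 0 ≤ δ) (i : Fin k) :
    ((badPairs G δ i).card : ℝ) ≤ δ * n ^ 2 := by
  unfold badPairs
  rw [Finset.card_filter]
  push_cast
  rw [Fintype.sum_prod_type]
  have h1 : ∀ u : Fin n, ∑ v : Fin n, (if (G i).Adj u v ∧ i ∉ typ G δ u then (1:ℝ) else 0) ≤ δ * n := by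
    intro u
    by_cases hu : i ∈ typ G δ u
    · simp only [hu, not_true, and_false, if_false, Finset.sum_const_zero]
      positivity
    · have e1 : ∑ v : Fin n, (if (G i).Adj u v ∧ i ∉ typ G δ u then (1:ℝ) else 0) = deg (G i) u := by
        unfold deg
        rw [Finset.card_filter]
        push_cast
        apply Finset.sum_congr rfl
        intro v _
        simp [hu]
      rw [e1]
      have h2 : ¬ (δ * n ≤ (deg (G i) u : ℝ)) := by
        intro h; apply hu; unfold typ; exact Finset.mem_filter.2 ⟨Finset.mem_univ _, h⟩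
      push Not at h2
      exact h2.le
  calc ∑ u : Fin n, ∑ v : Fin n, (if (G i).Adj u v ∧ i ∉ typ G δ u then (1:ℝ) else 0)
      ≤ ∑ _u : Fin n, δ * n := Finset.sum_le_sum (fun u _ => h1 u)
    _ = δ * n ^ 2 := by
        simp only [Finset.sum_const, Finset.card_univ, Fintype.card_fin, nsmul_eq_mul]; ring

lemma pair_bound (G : Fin k → SimpleGraph (Fin n)) (hG : IsFactorization G) (δ : ℝ) (hδ : 0 ≤ δ)
    (S T : Finset (Fin k)) (hST : ¬ (S ∩ T).Nonempty) :
    (cnt G δ S : ℝ) * cnt G δ T ≤ 2 * k * δ * n ^ 2 + n := by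
  set A := (Finset.univ.filter (fun v => typ G δ v = S)) ×ˢ
    (Finset.univ.filter (fun v => typ G δ v = T)) with hA
  set D : Finset (Fin n × Fin n) := Finset.univ.image (fun v : Fin n => (v, v)) with hD
  set B1 : Finset (Fin n × Fin n) := Finset.univ.biUnion (fun i => badPairs G δ i) with hB1
  set B2 : Finset (Fin n × Fin n) := B1.image Prod.swap with hB2
  have hsub : A ⊆ (D ∪ B1) ∪ B2 := by
    rintro ⟨u, v⟩ huv
    rw [hA, Finset.mem_product] at huv
    simp only [Finset.mem_filter, Finset.mem_univ, true_and] at huv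
    obtain ⟨hu, hv⟩ := huv
    by_cases huv : u = v
    · apply Finset.mem_union_left
      apply Finset.mem_union_left
      rw [hD, Finset.mem_image]
      exact ⟨u, Finset.mem_univ _, by rw [huv]⟩
    · obtain ⟨i, hi⟩ := hG.cover u v huv
      by_cases h1 : i ∈ typ G δ u
      · have h2 : i ∉ typ G δ v := by
          intro h2
          apply hST
          exact ⟨i, Finset.mem_inter.2 ⟨hu ▸ h1, hv ▸ h2⟩⟩
        apply Finset.mem_union_right
        rw [hB2, Finset.mem_image]
        refine ⟨(v, u), ?_, rfl⟩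
        rw [hB1, Finset.mem_biUnion]
        refine ⟨i, Finset.mem_univ _, ?_⟩
        unfold badPairs
        exact Finset.mem_filter.2 ⟨Finset.mem_univ _, hi.symm, h2⟩
      · apply Finset.mem_union_left
        apply Finset.mem_union_right
        rw [hB1, Finset.mem_biUnion]
        refine ⟨i, Finset.mem_univ _, ?_⟩
        unfold badPairs
        exact Finset.mem_filter.2 ⟨Finset.mem_univ _, hi, h1⟩
  have hcard : A.card = cnt G δ S * cnt G δ T := by
    rw [hA, Finset.card_product]; rfl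
  have hDc : D.card ≤ n := by
    have := Finset.card_image_le (s := (Finset.univ : Finset (Fin n))) (f := fun v : Fin n => (v, v))
    simpa using this
  have hB1c : (B1.card : ℝ) ≤ k * (δ * n ^ 2) := by
    have h1 : B1.card ≤ ∑ i, (badPairs G δ i).card := Finset.card_biUnion_le
    calc (B1.card : ℝ) ≤ ((∑ i, (badPairs G δ i).card : ℕ) : ℝ) := by exact_mod_cast h1
      _ = ∑ i, ((badPairs G δ i).card : ℝ) := by push_cast; rfl
      _ ≤ ∑ _i : Fin k, δ * n ^ 2 := Finset.sum_le_sum (fun i _ => card_badPairs G δ hδ i)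
      _ = k * (δ * n ^ 2) := by
        simp only [Finset.sum_const, Finset.card_univ, Fintype.card_fin, nsmul_eq_mul]
  have hB2c : B2.card ≤ B1.card := Finset.card_image_le
  have h1 : A.card ≤ D.card + B1.card + B2.card := by
    have a1 := Finset.card_le_card hsub
    have a2 := Finset.card_union_le (D ∪ B1) B2
    have a3 := Finset.card_union_le D B1
    omega
  have h2 : (A.card : ℝ) ≤ D.card + B1.card + B2.card := by exact_mod_cast h1
  have h3 : (D.card : ℝ) ≤ n := by exact_mod_cast hDc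
  have h4 : (B2.card : ℝ) ≤ B1.card := by exact_mod_cast hB2c
  have h5 : (A.card : ℝ) = (cnt G δ S : ℝ) * cnt G δ T := by rw [hcard]; push_cast; ring
  rw [← h5]
  linarith

lemma sum_cnt (G : Fin k → SimpleGraph (Fin n)) (δ : ℝ) : ∑ S, (cnt G δ S : ℝ) = n := by
  have h : ∑ S, cnt G δ S = (Finset.univ : Finset (Fin n)).card := by
    unfold cnt
    exact (Finset.card_eq_sum_card_fiberwise (fun v _ => Finset.mem_univ (typ G δ v))).symm
  simp only [Finset.card_univ, Fintype.card_fin] at h
  exact_mod_cast h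

lemma low_card (G : Fin k → SimpleGraph (Fin n)) (δ : ℝ) (i : Fin k) :
    ((Finset.univ.filter (fun v => ¬ (δ * n ≤ (deg (G i) v : ℝ)))).card : ℝ)
      = n - ∑ S : Finset (Fin k), if i ∈ S then (cnt G δ S : ℝ) else 0 := by
  have h : (Finset.univ.filter (fun v => ¬ (δ * n ≤ (deg (G i) v : ℝ)))).card
      = ∑ S : Finset (Fin k), if i ∈ S then 0 else cnt G δ S := by
    rw [Finset.card_eq_sum_card_fiberwise (f := typ G δ) (t := Finset.univ)
      (fun v _ => Finset.mem_univ (typ G δ v))]
    apply Finset.sum_congr rfl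
    intro S _
    by_cases hi : i ∈ S
    · rw [if_pos hi, Finset.card_eq_zero, Finset.filter_eq_empty_iff]
      intro v hv hvS
      rw [Finset.mem_filter] at hv
      apply hv.2
      rw [← hvS] at hi
      unfold typ at hi
      exact (Finset.mem_filter.1 hi).2
    · rw [if_neg hi]
      unfold cnt
      congr 1
      ext v
      simp only [Finset.mem_filter, Finset.mem_univ, true_and]
      constructor
      · rintro ⟨_, h2⟩; exact h2
      · intro h2
        refine ⟨?_, h2⟩
        intro h3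
        apply hi
        rw [← h2]
        unfold typ
        exact Finset.mem_filter.2 ⟨Finset.mem_univ _, h3⟩
  rw [h, ← sum_cnt G δ, ← Finset.sum_sub_distrib]
  push_cast
  apply Finset.sum_congr rfl
  intro S _
  split_ifs <;> simp

/-- quantitative core of the upper bound. -/
lemma prod_upper_core (G : Fin k → SimpleGraph (Fin n)) (hG : IsFactorization G) (hn : 0 < n)
    (ζ η δ : ℝ) (m : ℕ) (hζ : 0 < ζ) (hζ1 : ζ ≤ 1) (hη : 0 < η) (hηζ : 2 ^ k * η ≤ ζ / 3)
    (hδ : 0 ≤ δ) (hδ1 : δ ≤ 1) (hδη : 2 * k * δ ≤ η ^ 2 / 2)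
    (hm : (1 - δ) ^ m ≤ ζ / 3) (hmn : (m : ℝ) ≤ ζ / 3 * n) (hn2 : 2 ≤ η ^ 2 * n) :
    ∏ i, ((totalDomNumber (G i) : ℝ) / n) ≤ 1 / 27 + ((1 + ζ) ^ k - 1) := by
  have hn' : (0 : ℝ) < n := by exact_mod_cast hn
  set F : Finset (Finset (Fin k)) := Finset.univ.filter (fun S => η * n < (cnt G δ S : ℝ)) with hF
  set W : ℝ := (∑ S ∈ F, (cnt G δ S : ℝ)) / n with hW
  have hsplit : ∑ S ∈ F, (cnt G δ S : ℝ) + ∑ S ∈ Fᶜ, (cnt G δ S : ℝ) = n := by
    rw [Finset.sum_add_sum_compl]; exact sum_cnt G δ
  have hsmall : ∑ S ∈ Fᶜ, (cnt G δ S : ℝ) ≤ 2 ^ k * (η * n) := by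
    calc ∑ S ∈ Fᶜ, (cnt G δ S : ℝ) ≤ ∑ _S ∈ Fᶜ, η * n := by
          apply Finset.sum_le_sum
          intro S hS
          rw [Finset.mem_compl, hF, Finset.mem_filter] at hS
          push Not at hS
          exact hS (Finset.mem_univ _)
      _ = (Fᶜ.card : ℝ) * (η * n) := by rw [Finset.sum_const, nsmul_eq_mul]
      _ ≤ 2 ^ k * (η * n) := by
          apply mul_le_mul_of_nonneg_right _ (by positivity)
          have h1 : Fᶜ.card ≤ (Finset.univ : Finset (Finset (Fin k))).card :=
            Finset.card_le_card (Finset.subset_univ _)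
          simp only [Finset.card_univ, Fintype.card_finset, Fintype.card_fin] at h1
          exact_mod_cast h1
  have hW1 : 1 - ζ / 3 ≤ W := by
    rw [hW, le_div_iff₀ hn']
    nlinarith
  have hWle : W ≤ 1 := by
    rw [hW, div_le_one hn']
    have : 0 ≤ ∑ S ∈ Fᶜ, (cnt G δ S : ℝ) := Finset.sum_nonneg (fun S _ => by positivity)
    linarith
  have hWpos : 0 < W := by linarith
  set w : Finset (Fin k) → ℝ := fun S => if S ∈ F then (cnt G δ S : ℝ) / (n * W) else 0 with hw
  have hw0 : ∀ S, 0 ≤ w S := by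
    intro S; simp only [hw]; split_ifs
    · positivity
    · exact le_rfl
  have hw1 : ∑ S, w S = 1 := by
    simp only [hw]
    rw [← Finset.sum_filter]
    have e1 : Finset.filter (fun S => S ∈ F) Finset.univ = F := by ext S; simp
    rw [e1, ← Finset.sum_div]
    have e2 : (n : ℝ) * W = ∑ S ∈ F, (cnt G δ S : ℝ) := by
      rw [hW]; field_simp
    rw [e2]
    apply div_self
    rw [← e2]
    positivity
  have hint : ∀ S T, w S ≠ 0 → w T ≠ 0 → (S ∩ T).Nonempty := by
    intro S T hS hT
    have hS' : S ∈ F := by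
      by_contra h; apply hS; simp only [hw, h, if_false]
    have hT' : T ∈ F := by
      by_contra h; apply hT; simp only [hw, h, if_false]
    by_contra hcon
    have h1 := pair_bound G hG δ hδ S T hcon
    have h2 : η * n < (cnt G δ S : ℝ) := (Finset.mem_filter.1 hS').2
    have h3 : η * n < (cnt G δ T : ℝ) := (Finset.mem_filter.1 hT').2
    have h4 : (η * n) * (η * n) < (cnt G δ S : ℝ) * cnt G δ T := by
      apply mul_lt_mul'' h2 h3 (by positivity) (by positivity)
    have h5 : 2 * k * δ * (n:ℝ) ^ 2 ≤ η ^ 2 / 2 * n ^ 2 :=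
      mul_le_mul_of_nonneg_right hδη (by positivity)
    have h6 : (n : ℝ) ≤ η ^ 2 / 2 * n ^ 2 := by nlinarith
    nlinarith
  have hmain := prod_one_sub_marg_le w hw0 hw1 hint
  have hfac : ∀ i, (totalDomNumber (G i) : ℝ) / n ≤ (1 - marg w i) + ζ := by
    intro i
    have h1 := totalDomNumber_le_low (G i) (hG.minDeg i) δ hδ1 m
    rw [low_card] at h1
    have h2 : n * W * marg w i ≤ ∑ S : Finset (Fin k), if i ∈ S then (cnt G δ S : ℝ) else 0 := by
      unfold marg
      rw [Finset.mul_sum]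
      apply Finset.sum_le_sum
      intro S _
      by_cases hi : i ∈ S
      · simp only [hi, if_true, hw]
        split_ifs
        · apply le_of_eq; field_simp
        · simp
      · simp [hi]
    have h3 : marg w i ≤ 1 := marg_le_one w hw0 hw1 i
    have h3' : 0 ≤ marg w i := marg_nonneg w hw0 i
    rw [div_le_iff₀ hn']
    have h4 : (1 - δ) ^ m * n ≤ ζ / 3 * n := mul_le_mul_of_nonneg_right hm hn'.le
    have h5 : n * marg w i - ζ / 3 * n ≤ n * W * marg w i := by
      have : (1 - W) * marg w i ≤ ζ / 3 := by nlinarith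
      nlinarith
    nlinarith
  calc ∏ i, ((totalDomNumber (G i) : ℝ) / n) ≤ ∏ i, ((1 - marg w i) + ζ) := by
        apply Finset.prod_le_prod
        · intro i _; positivity
        · intro i _; exact hfac i
    _ ≤ ∏ i, (1 - marg w i) + ((1 + ζ) ^ (Finset.univ : Finset (Fin k)).card - 1) :=
        prod_add_le Finset.univ (fun i => 1 - marg w i) ζ hζ.le
          (fun i => by linarith [marg_le_one w hw0 hw1 i])
          (fun i => by linarith [marg_nonneg w hw0 i])
    _ ≤ 1 / 27 + ((1 + ζ) ^ k - 1) := by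
        simp only [Finset.card_univ, Fintype.card_fin]
        linarith

theorem prod_upper (k : ℕ) (hk : 1 ≤ k) (ε : ℝ) (hε : 0 < ε) :
    ∃ N : ℕ, ∀ n ≥ N, ∀ G : Fin k → SimpleGraph (Fin n), IsFactorization G →
      ∏ i, ((totalDomNumber (G i) : ℝ) / n) ≤ 1 / 27 + ε := by
  -- choose ζ
  have hcont : Tendsto (fun z : ℝ => (1 + z) ^ k) (𝓝 0) (𝓝 1) := by
    have : ContinuousAt (fun z : ℝ => (1 + z) ^ k) 0 := by fun_prop
    have h2 := this.tendsto
    simpa using h2
  have hev : ∀ᶠ z : ℝ in 𝓝 0, (1 + z) ^ k < 1 + ε := hcont.eventually_lt_const (by linarith)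
  obtain ⟨r, hr, hball⟩ := Metric.eventually_nhds_iff.1 hev
  set ζ : ℝ := min (r / 2) 1 with hζdef
  have hζ : 0 < ζ := lt_min (by linarith) one_pos
  have hζ1 : ζ ≤ 1 := min_le_right _ _
  have hζr : ζ < r := lt_of_le_of_lt (min_le_left _ _) (by linarith)
  have hζε : (1 + ζ) ^ k < 1 + ε := by
    apply hball
    rw [Real.dist_eq, sub_zero, abs_of_pos hζ]; exact hζr
  set η : ℝ := ζ / (3 * 2 ^ k) with hη
  have hηpos : 0 < η := by positivity
  have hkpos : (0 : ℝ) < k := by exact_mod_cast hk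
  set δ : ℝ := min (η ^ 2 / (4 * k)) (1 / 2) with hδdef
  have hδpos : 0 < δ := lt_min (by positivity) (by norm_num)
  have hδ2 : δ ≤ 1 / 2 := min_le_right _ _
  have hδη : 2 * k * δ ≤ η ^ 2 / 2 := by
    have h1 : δ ≤ η ^ 2 / (4 * k) := min_le_left _ _
    rw [le_div_iff₀ (by positivity)] at h1
    linarith
  obtain ⟨m, hm⟩ := exists_pow_lt_of_lt_one (show 0 < ζ / 3 by positivity) (show 1 - δ < 1 by linarith)
  obtain ⟨N1, hN1⟩ := exists_nat_ge ((m : ℝ) / (ζ / 3))
  obtain ⟨N2, hN2⟩ := exists_nat_ge (2 / η ^ 2)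
  refine ⟨max (max N1 N2) 1, ?_⟩
  intro n hn G hG
  have hn1 : (N1 : ℝ) ≤ n := by
    exact_mod_cast le_trans (le_trans (le_max_left _ _) (le_max_left _ _)) hn
  have hn2 : (N2 : ℝ) ≤ n := by
    exact_mod_cast le_trans (le_trans (le_max_right _ _) (le_max_left _ _)) hn
  have hn3 : 0 < n := lt_of_lt_of_le one_pos (le_trans (le_max_right _ _) hn)
  have h := prod_upper_core G hG hn3 ζ η δ m hζ hζ1 hηpos (by rw [hη]; field_simp; exact le_rfl)
    hδpos.le (by linarith) hδη hm.le (by
      have h1 := le_trans hN1 hn1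
      rw [div_le_iff₀ (by positivity)] at h1
      linarith) (by
      have h1 := le_trans hN2 hn2
      rw [div_le_iff₀ (by positivity)] at h1
      linarith)
  linarith

end Pool.Agent.H312TD
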