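import Pool.Agent.H312TD.Robust
import Pool.Agent.H312TD.Upper

namespace Pool.Agent.H312TD

open Finset Classical Filter Topology

variable {n k : ℕ}

/-- number of ordered pairs whose types do not meet. -/
lemma pair_bound_all (G : Fin k → SimpleGraph (Fin n)) (hG : IsFactorization G) (δ : ℝ) (hδ : 0 ≤ δ) :
    ((Finset.univ.filter (fun p : Fin n × Fin n => ¬ (typ G δ p.1 ∩ typ G δ p.2).Nonempty)).card : ℝ)
      ≤ 2 * k * δ * n ^ 2 + n := by
  set A := Finset.univ.filter (fun p : Fin n × Fin n => ¬ (typ G δ p.1 ∩ typ G δ p.2).Nonempty) with hA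
  set D : Finset (Fin n × Fin n) := Finset.univ.image (fun v : Fin n => (v, v)) with hD
  set B1 : Finset (Fin n × Fin n) := Finset.univ.biUnion (fun i => badPairs G δ i) with hB1
  set B2 : Finset (Fin n × Fin n) := B1.image Prod.swap with hB2
  have hsub : A ⊆ (D ∪ B1) ∪ B2 := by
    rintro ⟨u, v⟩ huv
    rw [hA, Finset.mem_filter] at huv
    have hST := huv.2
    simp only at hST
    by_cases huv : u = v
    · apply Finset.mem_union_left
      apply Finset.mem_union_left
      rw [hD, Finset.mem_image]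
      exact ⟨u, Finset.mem_univ _, by rw [huv]⟩
    · obtain ⟨i, hi⟩ := hG.cover u v huv
      by_cases h1 : i ∈ typ G δ u
      · have h2 : i ∉ typ G δ v := by
          intro h2
          apply hST
          exact ⟨i, Finset.mem_inter.2 ⟨h1, h2⟩⟩
        apply Finset.mem_union_right
        rw [hB2, Finset.mem_image]
        refine ⟨(v, u), ?_, rfl⟩
        rw [hB1, Finset.mem_biUnion]
        refine ⟨i, Finset.mem_univ _, ?_⟩
        unfold badPairs
        exact Finset.mem_filter.2 ⟨Finset.mem_univ _, hi.symm, h2⟩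
      · apply Finset.mem_union_left
        apply Finset.mem_union_right
        rw [hB1, Finset.mem_biUnion]
        refine ⟨i, Finset.mem_univ _, ?_⟩
        unfold badPairs
        exact Finset.mem_filter.2 ⟨Finset.mem_univ _, hi, h1⟩
  have hDc : D.card ≤ n := by
    have := Finset.card_image_le (s := (Finset.univ : Finset (Fin n))) (f := fun v : Fin n => (v, v))
    simpa using this
  have hB1c : (B1.card : ℝ) ≤ k * (δ * n ^ 2) := by
    have h1 : B1.card ≤ ∑ i, (badPairs G δ i).card := Finset.card_biUnion_le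
    calc (B1.card : ℝ) ≤ ((∑ i, (badPairs G δ i).card : ℕ) : ℝ) := by exact_mod_cast h1
      _ = ∑ i, ((badPairs G δ i).card : ℝ) := by push_cast; rfl
      _ ≤ ∑ _i : Fin k, δ * n ^ 2 := Finset.sum_le_sum (fun i _ => card_badPairs G δ hδ i)
      _ = k * (δ * n ^ 2) := by
        simp only [Finset.sum_const, Finset.card_univ, Fintype.card_fin, nsmul_eq_mul]
  have hB2c : B2.card ≤ B1.card := Finset.card_image_le
  have h1 : A.card ≤ D.card + B1.card + B2.card := by
    have a1 := Finset.card_le_card hsub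
    have a2 := Finset.card_union_le (D ∪ B1) B2
    have a3 := Finset.card_union_le D B1
    omega
  have h2 : (A.card : ℝ) ≤ D.card + B1.card + B2.card := by exact_mod_cast h1
  have h3 : (D.card : ℝ) ≤ n := by exact_mod_cast hDc
  have h4 : (B2.card : ℝ) ≤ B1.card := by exact_mod_cast hB2c
  linarith

lemma sum_pairs_eq (G : Fin k → SimpleGraph (Fin n)) (δ : ℝ) :
    ((Finset.univ.filter (fun p : Fin n × Fin n => ¬ (typ G δ p.1 ∩ typ G δ p.2).Nonempty)).card : ℝ)
      = ∑ S, ∑ T, (if (S ∩ T).Nonempty then 0 else (cnt G δ S : ℝ) * cnt G δ T) := by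
  have h : (Finset.univ.filter (fun p : Fin n × Fin n => ¬ (typ G δ p.1 ∩ typ G δ p.2).Nonempty)).card
      = ∑ q : Finset (Fin k) × Finset (Fin k),
        (if (q.1 ∩ q.2).Nonempty then 0 else cnt G δ q.1 * cnt G δ q.2) := by
    rw [Finset.card_eq_sum_card_fiberwise (f := fun p : Fin n × Fin n => (typ G δ p.1, typ G δ p.2))
      (t := Finset.univ) (fun v _ => Finset.mem_univ _)]
    apply Finset.sum_congr rfl
    rintro ⟨S, T⟩ _
    by_cases hne : (S ∩ T).Nonempty
    · simp only [hne, if_true]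
      rw [Finset.card_eq_zero, Finset.filter_eq_empty_iff]
      intro p hp hpq
      rw [Finset.mem_filter] at hp
      rw [Prod.mk.injEq] at hpq
      apply hp.2
      rw [hpq.1, hpq.2]
      exact hne
    · simp only [hne, if_false]
      unfold cnt
      rw [← Finset.card_product]
      congr 1
      ext p
      simp only [Finset.mem_filter, Finset.mem_univ, true_and, Finset.mem_product, Prod.mk.injEq]
      constructor
      · rintro ⟨_, h2⟩; exact h2
      · rintro ⟨h1, h2⟩
        refine ⟨?_, h1, h2⟩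
        rw [h1, h2]; exact hne
  rw [h, Fintype.sum_prod_type]
  push_cast
  rfl

/-- quantitative core of the uniform upper bound. -/
lemma prod_upper_core' (hk : 2 ≤ k) (G : Fin k → SimpleGraph (Fin n)) (hG : IsFactorization G)
    (hn : 0 < n) (η δ ζ : ℝ) (m : ℕ) (hη : 0 < η) (hη1 : η ≤ 1 / 100) (hζ : 0 ≤ ζ)
    (hδ : 0 ≤ δ) (hδ1 : δ ≤ 1) (hδη : 2 * k * δ + 1 / n ≤ η ^ 2)
    (hm : (m : ℝ) / n + (1 - δ) ^ m ≤ ζ) :
    ∏ i, ((totalDomNumber (G i) : ℝ) / n) ≤ 1 / 27 + 4 * η + ((1 + ζ) ^ k - 1) := by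
  have hn' : (0 : ℝ) < n := by exact_mod_cast hn
  set w : Finset (Fin k) → ℝ := fun S => (cnt G δ S : ℝ) / n with hw
  have hw0 : ∀ S, 0 ≤ w S := by
    intro S; simp only [hw]; positivity
  have hw1 : ∑ S, w S = 1 := by
    simp only [hw]
    rw [← Finset.sum_div, sum_cnt, div_self hn'.ne']
  have hI : ∑ S, ∑ T, (if (S ∩ T).Nonempty then 0 else w S * w T) ≤ η ^ 2 := by
    have e1 : ∑ S : Finset (Fin k), ∑ T : Finset (Fin k), (if (S ∩ T).Nonempty then (0:ℝ) else w S * w T)
        = (∑ S : Finset (Fin k), ∑ T : Finset (Fin k),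
          (if (S ∩ T).Nonempty then (0:ℝ) else (cnt G δ S : ℝ) * cnt G δ T)) / (n:ℝ) ^ 2 := by
      rw [Finset.sum_div]
      apply Finset.sum_congr rfl
      intro S _
      rw [Finset.sum_div]
      apply Finset.sum_congr rfl
      intro T _
      simp only [hw]
      split_ifs
      · simp
      · field_simp
    rw [e1, ← sum_pairs_eq, div_le_iff₀ (by positivity)]
    refine le_trans (pair_bound_all G hG δ hδ) ?_
    have h2 := mul_le_mul_of_nonneg_right hδη (by positivity : (0:ℝ) ≤ (n:ℝ) ^ 2)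
    have h3 : (2 * k * δ + 1 / (n:ℝ)) * n ^ 2 = 2 * k * δ * n ^ 2 + n := by
      field_simp
    linarith
  have hmain := robust hk w hw0 hw1 η hη hη1 hI
  have hfac : ∀ i, (totalDomNumber (G i) : ℝ) / n ≤ (1 - marg w i) + ζ := by
    intro i
    have h1 := totalDomNumber_le_low (G i) (hG.minDeg i) δ hδ1 m
    rw [low_card] at h1
    have h2 : n * marg w i = ∑ S : Finset (Fin k), if i ∈ S then (cnt G δ S : ℝ) else 0 := by
      unfold marg
      rw [Finset.mul_sum]
      apply Finset.sum_congr rfl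
      intro S _
      simp only [hw]
      split_ifs
      · field_simp
      · simp
    rw [← h2] at h1
    have h3 : (totalDomNumber (G i) : ℝ) / n ≤ ((n : ℝ) - n * marg w i + m + (1 - δ) ^ m * n) / n :=
      div_le_div_of_nonneg_right h1 hn'.le
    have h4 : ((n : ℝ) - n * marg w i + m + (1 - δ) ^ m * n) / n
        = (1 - marg w i) + (m / n + (1 - δ) ^ m) := by
      field_simp
      ring
    rw [h4] at h3
    linarith
  calc ∏ i, ((totalDomNumber (G i) : ℝ) / n) ≤ ∏ i, ((1 - marg w i) + ζ) := by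
        apply Finset.prod_le_prod
        · intro i _; positivity
        · intro i _; exact hfac i
    _ ≤ ∏ i, (1 - marg w i) + ((1 + ζ) ^ (Finset.univ : Finset (Fin k)).card - 1) :=
        prod_add_le Finset.univ (fun i => 1 - marg w i) ζ hζ
          (fun i => by linarith [marg_le_one w hw0 hw1 i])
          (fun i => by linarith [marg_nonneg w hw0 i])
    _ ≤ 1 / 27 + 4 * η + ((1 + ζ) ^ k - 1) := by
        simp only [Finset.card_univ, Fintype.card_fin]
        linarith

theorem prod_upper_unif (ε : ℝ) (hε : 0 < ε) :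
    ∃ K : ℕ, ∀ n k : ℕ, 2 ≤ k → K * k ^ 3 ≤ n → ∀ G : Fin k → SimpleGraph (Fin n),
      IsFactorization G → ∏ i, ((totalDomNumber (G i) : ℝ) / n) ≤ 1 / 27 + ε := by
  set η : ℝ := min (ε / 8) (1 / 100) with hηdef
  have hη : 0 < η := lt_min (by linarith) (by norm_num)
  have hη1 : η ≤ 1 / 100 := min_le_right _ _
  have hηε : η ≤ ε / 8 := min_le_left _ _
  obtain ⟨K, hK⟩ := exists_nat_ge (2 / η * (8 / η ^ 3 + 1) + 2 / η ^ 2)
  refine ⟨K, ?_⟩
  intro n k hk hn G hG
  have hk2 : (2 : ℝ) ≤ k := by exact_mod_cast hk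
  have hkpos : (0 : ℝ) < k := by linarith
  have hnK : (K : ℝ) * k ^ 3 ≤ n := by exact_mod_cast hn
  have hk3 : (1 : ℝ) ≤ (k : ℝ) ^ 3 := one_le_pow₀ (by linarith)
  have hKpos : (0 : ℝ) < K := lt_of_lt_of_le (by positivity) hK
  have hnpos : (0 : ℝ) < n := lt_of_lt_of_le (by positivity) hnK
  have hn0 : 0 < n := by exact_mod_cast hnpos
  have hn1 : 2 / η ^ 2 ≤ n := by
    have e1 : 2 / η ^ 2 ≤ K := le_trans (by
      have : 0 ≤ 2 / η * (8 / η ^ 3 + 1) := by positivity
      linarith) hK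
    have e2 : (K : ℝ) * 1 ≤ K * k ^ 3 := mul_le_mul_of_nonneg_left hk3 hKpos.le
    linarith
  have hn2 : 2 / η * (8 / η ^ 3 + 1) * k ^ 3 ≤ n := by
    have e1 : 2 / η * (8 / η ^ 3 + 1) ≤ K := le_trans (by
      have : 0 ≤ 2 / η ^ 2 := by positivity
      linarith) hK
    exact le_trans (mul_le_mul_of_nonneg_right e1 (by positivity)) hnK
  set δ : ℝ := η ^ 2 / (4 * k) with hδdef
  have hδpos : 0 < δ := by positivity
  have hδ1 : δ ≤ 1 := by
    rw [hδdef, div_le_one (by positivity)]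
    nlinarith
  set m : ℕ := ⌈8 * (k : ℝ) ^ 2 / η ^ 3⌉₊ with hmdef
  have hm1 : 8 * (k : ℝ) ^ 2 / η ^ 3 ≤ m := Nat.le_ceil _
  have hm2 : (m : ℝ) ≤ 8 * (k : ℝ) ^ 2 / η ^ 3 + 1 := (Nat.ceil_lt_add_one (by positivity)).le
  have hpow : (1 - δ) ^ m ≤ η / (2 * k) := by
    have h1 : (1 - δ) ^ m ≤ Real.exp (-δ) ^ m := by
      apply pow_le_pow_left₀ (by linarith)
      linarith [Real.add_one_le_exp (-δ)]
    rw [← Real.exp_nat_mul] at h1
    have h2 : 2 * k / η ≤ m * δ := by
      have e1 : 8 * (k : ℝ) ^ 2 / η ^ 3 * δ = 2 * k / η := by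
        rw [hδdef]; field_simp; norm_num
      rw [← e1]
      exact mul_le_mul_of_nonneg_right hm1 hδpos.le
    have h3 : Real.exp ((m : ℝ) * -δ) ≤ Real.exp (-(2 * k / η)) := by
      apply Real.exp_le_exp.2; linarith
    have h4 : Real.exp (-(2 * k / η)) ≤ η / (2 * k) := by
      rw [Real.exp_neg]
      have h5 : 2 * k / η ≤ Real.exp (2 * k / η) := by
        linarith [Real.add_one_le_exp (2 * k / η)]
      have h6 : 0 < 2 * k / η := by positivity
      calc (Real.exp (2 * k / η))⁻¹ ≤ (2 * k / η)⁻¹ := inv_anti₀ h6 h5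
        _ = η / (2 * k) := by rw [inv_div]
    linarith
  have hmn : (m : ℝ) / n ≤ η / (2 * k) := by
    rw [div_le_div_iff₀ hnpos (by positivity)]
    have e1 : (m : ℝ) * (2 * k) ≤ (8 * (k : ℝ) ^ 2 / η ^ 3 + 1) * (2 * k) :=
      mul_le_mul_of_nonneg_right hm2 (by positivity)
    have e2 : η * (2 / η * (8 / η ^ 3 + 1) * k ^ 3) ≤ η * n := mul_le_mul_of_nonneg_left hn2 hη.le
    have e3 : η * (2 / η * (8 / η ^ 3 + 1) * k ^ 3) = 16 * k ^ 3 / η ^ 3 + 2 * k ^ 3 := by
      field_simp; ring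
    have e4 : (8 * (k : ℝ) ^ 2 / η ^ 3 + 1) * (2 * k) = 16 * k ^ 3 / η ^ 3 + 2 * k := by
      field_simp; ring
    have e5 : (k : ℝ) ≤ k ^ 3 := by
      nlinarith [mul_pos hkpos hkpos, mul_nonneg hkpos.le (by nlinarith : (0:ℝ) ≤ (k:ℝ)^2 - 1)]
    linarith
  have hζ : (m : ℝ) / n + (1 - δ) ^ m ≤ η / k := by
    have : η / (2 * k) + η / (2 * k) = η / k := by field_simp; norm_num
    linarith
  have h := prod_upper_core' hk G hG hn0 η δ (η / k) m hη hη1 (by positivity) hδpos.le hδ1 (by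
    have e1 : 2 * k * δ = η ^ 2 / 2 := by rw [hδdef]; field_simp; norm_num
    have e2 : 1 / (n : ℝ) ≤ η ^ 2 / 2 := by
      rw [div_le_div_iff₀ hnpos (by norm_num)]
      rw [div_le_iff₀ (by positivity)] at hn1
      linarith
    linarith) hζ
  have hfin : (1 + η / k) ^ k ≤ 1 + 2 * η := by
    have h1 : (1 + η / k) ^ k ≤ Real.exp (η / k) ^ k := by
      apply pow_le_pow_left₀ (by positivity)
      linarith [Real.add_one_le_exp (η / k)]
    rw [← Real.exp_nat_mul] at h1
    have h2 : (k : ℝ) * (η / k) = η := by field_simp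
    rw [h2] at h1
    have h3 : Real.exp η * (1 - η) ≤ 1 := by
      have h4 : 1 - η ≤ Real.exp (-η) := by linarith [Real.add_one_le_exp (-η)]
      calc Real.exp η * (1 - η) ≤ Real.exp η * Real.exp (-η) :=
            mul_le_mul_of_nonneg_left h4 (Real.exp_pos _).le
        _ = 1 := by rw [← Real.exp_add, add_neg_cancel, Real.exp_zero]
    have h5 : 1 ≤ (1 + 2 * η) * (1 - η) := by nlinarith
    have h6 : 0 < 1 - η := by linarith
    have h7 : Real.exp η ≤ 1 + 2 * η := le_of_mul_le_mul_right (le_trans h3 h5) h6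
    linarith
  linarith

end Pool.Agent.H312TD
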